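import Mathlib

set_option autoImplicit false
set_option linter.unusedSectionVars false

open Finset

namespace Pool.Agent.TH994.LR

section Basic

variable {V : Type*} [Fintype V] [DecidableEq V]

/-- total weight of the boundary of `S` -/
def bd (W : Sym2 V → ℝ) (S : Finset V) : ℝ := ∑ p ∈ S ×ˢ Sᶜ, W s(p.1, p.2)

/-- the part of the boundary of `D` that stays on the same side of `A` -/
def sb (W : Sym2 V → ℝ) (A D : Finset V) : ℝ :=
  ∑ p ∈ (D ×ˢ Dᶜ).filter (fun p => p.1 ∈ A ↔ p.2 ∈ A), W s(p.1, p.2)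

/-- the part of the boundary of `D` that crosses `A` -/
def ob (W : Sym2 V → ℝ) (A D : Finset V) : ℝ :=
  ∑ p ∈ (D ×ˢ Dᶜ).filter (fun p => ¬ (p.1 ∈ A ↔ p.2 ∈ A)), W s(p.1, p.2)

/-- the weight from `x` to the other side of `A` -/
def opp (W : Sym2 V → ℝ) (A : Finset V) (x : V) : ℝ :=
  ∑ y ∈ univ.filter (fun y => ¬ (x ∈ A ↔ y ∈ A)), W s(x, y)

theorem sb_add_ob (W : Sym2 V → ℝ) (A D : Finset V) : sb W A D + ob W A D = bd W D :=
  Finset.sum_filter_add_sum_filter_not _ _ _

theorem bd_eq (W : Sym2 V → ℝ) (S : Finset V) : bd W S = ∑ x ∈ S, ∑ y ∈ Sᶜ, W s(x, y) :=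
  Finset.sum_product _ _ _

theorem sum_opp (W : Sym2 V → ℝ) (A : Finset V) : ∑ x, opp W A x = 2 * bd W A := by
  have h1 : ∑ x, opp W A x = ∑ x ∈ A, opp W A x + ∑ x ∈ Aᶜ, opp W A x :=
    (Finset.sum_add_sum_compl A _).symm
  have h2 : ∑ x ∈ A, opp W A x = bd W A := by
    rw [bd_eq]
    refine Finset.sum_congr rfl fun x hx => ?_
    unfold opp
    refine Finset.sum_congr ?_ fun _ _ => rfl
    ext y; simp [hx]
  have h3 : ∑ x ∈ Aᶜ, opp W A x = bd W A := by
    rw [bd_eq, Finset.sum_comm]
    refine Finset.sum_congr rfl fun x hx => ?_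
    unfold opp
    have hx' : x ∉ A := by simpa using hx
    refine Finset.sum_congr ?_ fun y _ => by rw [Sym2.eq_swap]
    ext y; simp [hx']
  rw [h1, h2, h3]; ring

theorem ob_le {W : Sym2 V → ℝ} (hW : ∀ e, 0 ≤ W e) (A D : Finset V) :
    ob W A D ≤ ∑ x ∈ D, opp W A x := by
  unfold ob opp
  rw [← Finset.sum_finset_product' ((D ×ˢ univ).filter (fun p => ¬ (p.1 ∈ A ↔ p.2 ∈ A))) D
    (fun x => univ.filter (fun y => ¬ (x ∈ A ↔ y ∈ A)))]
  · refine Finset.sum_le_sum_of_subset_of_nonneg ?_ fun _ _ _ => hW _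
    refine Finset.filter_subset_filter _ ?_
    exact Finset.product_subset_product_right (Finset.subset_univ _)
  · rintro ⟨x, y⟩; simp

theorem bd_nonneg {W : Sym2 V → ℝ} (hW : ∀ e, 0 ≤ W e) (S : Finset V) : 0 ≤ bd W S :=
  Finset.sum_nonneg fun _ _ => hW _

theorem sb_nonneg {W : Sym2 V → ℝ} (hW : ∀ e, 0 ≤ W e) (A D : Finset V) : 0 ≤ sb W A D :=
  Finset.sum_nonneg fun _ _ => hW _

theorem ob_nonneg {W : Sym2 V → ℝ} (hW : ∀ e, 0 ≤ W e) (A D : Finset V) : 0 ≤ ob W A D :=
  Finset.sum_nonneg fun _ _ => hW _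

theorem bd_mono {W W' : Sym2 V → ℝ} (h : ∀ e, W e ≤ W' e) (S : Finset V) : bd W S ≤ bd W' S :=
  Finset.sum_le_sum fun _ _ => h _

/-! ### Partitions -/

open Classical in
/-- the class of `x` -/
noncomputable def cls (s : Setoid V) (x : V) : Finset V := univ.filter fun y => s x y

omit [DecidableEq V] in
theorem mem_cls {s : Setoid V} {x y : V} : y ∈ cls s x ↔ s x y := by
  simp [cls]

theorem self_mem_cls (s : Setoid V) (x : V) : x ∈ cls s x := mem_cls.2 (s.refl' x)

theorem cls_eq {s : Setoid V} {x y : V} (h : s x y) : cls s x = cls s y := by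
  ext z
  rw [mem_cls, mem_cls]
  exact ⟨fun h' => s.trans' (s.symm' h) h', fun h' => s.trans' h h'⟩

theorem cls_mono {s t : Setoid V} (h : s ≤ t) (x : V) : cls s x ⊆ cls t x := fun _ hy =>
  mem_cls.2 (h (mem_cls.1 hy))

open Classical in
/-- the classes that do not meet `B` -/
noncomputable def active (B : Finset V) (s : Setoid V) : Finset (Finset V) :=
  (univ.image (cls s)).filter (fun D => Disjoint D B)

theorem mem_active {B : Finset V} {s : Setoid V} {D : Finset V} :
    D ∈ active B s ↔ (∃ x, cls s x = D) ∧ Disjoint D B := by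
  simp [active]

theorem active_disjoint {B : Finset V} {s : Setoid V} {D D' : Finset V} (h : D ∈ active B s)
    (h' : D' ∈ active B s) (hne : D ≠ D') : Disjoint D D' := by
  obtain ⟨⟨x, rfl⟩, _⟩ := mem_active.1 h
  obtain ⟨⟨y, rfl⟩, _⟩ := mem_active.1 h'
  rw [Finset.disjoint_left]
  intro z hz hz'
  exact hne (cls_eq (s.trans' (mem_cls.1 hz) (s.symm' (mem_cls.1 hz'))))

theorem sum_active_le {B : Finset V} {s : Setoid V} {f : V → ℝ} (hf : ∀ x, 0 ≤ f x) :
    ∑ D ∈ active B s, ∑ x ∈ D, f x ≤ ∑ x, f x := by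
  rw [← Finset.sum_biUnion]
  · exact Finset.sum_le_sum_of_subset_of_nonneg (Finset.subset_univ _) fun x _ _ => hf x
  · intro D hD D' hD' hne
    exact active_disjoint hD hD' hne

theorem opp_nonneg {W : Sym2 V → ℝ} (hW : ∀ e, 0 ≤ W e) (A : Finset V) (x : V) :
    0 ≤ opp W A x := Finset.sum_nonneg fun _ _ => hW _

theorem sum_ob_le {W : Sym2 V → ℝ} (hW : ∀ e, 0 ≤ W e) (A B : Finset V) (s : Setoid V) :
    ∑ D ∈ active B s, ob W A D ≤ 2 * bd W A := by
  rw [← sum_opp]
  exact (Finset.sum_le_sum fun D _ => ob_le hW A D).trans (sum_active_le (opp_nonneg hW A))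

/-- the partition obtained by adding the pairs `π i` -/
def join {ι : Type*} (s : Setoid V) (π : ι → V × V) : Setoid V :=
  sInf {t | s ≤ t ∧ ∀ i, t (π i).1 (π i).2}

omit [Fintype V] [DecidableEq V] in
theorem le_join {ι : Type*} (s : Setoid V) (π : ι → V × V) : s ≤ join s π :=
  le_sInf fun _ ht => ht.1

omit [Fintype V] [DecidableEq V] in
theorem join_rel {ι : Type*} (s : Setoid V) (π : ι → V × V) (i : ι) :
    join s π (π i).1 (π i).2 := fun _ ht => ht.2 i

/-- `A` is a union of classes -/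
def Sat (A : Finset V) (s : Setoid V) : Prop := ∀ x y, s x y → (x ∈ A ↔ y ∈ A)

omit [Fintype V] [DecidableEq V] in
theorem Sat.mono {A : Finset V} {s t : Setoid V} (h : s ≤ t) (ht : Sat A t) : Sat A s :=
  fun _ _ hxy => ht _ _ (h hxy)

omit [Fintype V] [DecidableEq V] in
theorem Sat.join {ι : Type*} {A : Finset V} {s : Setoid V} {π : ι → V × V} (h : Sat A s)
    (hπ : ∀ i, (π i).1 ∈ A ↔ (π i).2 ∈ A) : Sat A (join s π) := by
  let t : Setoid V := ⟨fun x y => (x ∈ A ↔ y ∈ A), fun _ => Iff.rfl, fun h => h.symm,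
    fun h h' => h.trans h'⟩
  have : LR.join s π ≤ t := sInf_le ⟨fun x y hxy => h x y hxy, hπ⟩
  exact fun x y hxy => this hxy

/-- classes that do not meet `B` have at least `2 ^ r` elements -/
def Inv (B : Finset V) (r : ℕ) (s : Setoid V) : Prop :=
  ∀ x, Disjoint (cls s x) B → 2 ^ r ≤ (cls s x).card

/-- the admissible choices of one outgoing pair per class -/
noncomputable def ch (B : Finset V) (s : Setoid V) :
    Finset ({D // D ∈ active B s} → V × V) :=
  Fintype.piFinset (fun D : {D // D ∈ active B s} => D.1 ×ˢ D.1ᶜ)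

theorem mem_ch {B : Finset V} {s : Setoid V} {π : {D // D ∈ active B s} → V × V} :
    π ∈ ch B s ↔ ∀ D, (π D).1 ∈ D.1 ∧ (π D).2 ∉ D.1 := by
  simp [ch]

theorem Inv.join {B : Finset V} {r : ℕ} {s : Setoid V} (h : Inv B r s)
    {π : {D // D ∈ active B s} → V × V} (hπ : π ∈ ch B s) : Inv B (r + 1) (join s π) := by
  intro x hx
  have h1 : cls s x ⊆ cls (LR.join s π) x := cls_mono (le_join s π) x
  have hact : cls s x ∈ active B s := mem_active.2 ⟨⟨x, rfl⟩, hx.mono_left h1⟩
  obtain ⟨ha, hb⟩ := mem_ch.1 hπ ⟨_, hact⟩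
  have hrel := join_rel s π ⟨_, hact⟩
  set a := (π ⟨_, hact⟩).1
  set b := (π ⟨_, hact⟩).2
  have hxb : LR.join s π x b := (LR.join s π).trans' (le_join s π (mem_cls.1 ha)) hrel
  have h2 : cls s b ⊆ cls (LR.join s π) x := by
    rw [cls_eq hxb]; exact cls_mono (le_join s π) b
  have h3 := h x (hx.mono_left h1)
  have h4 := h b (hx.mono_left h2)
  have hd : Disjoint (cls s x) (cls s b) := by
    rw [Finset.disjoint_left]
    intro z hz hz'
    exact hb (mem_cls.2 (s.trans' (mem_cls.1 hz) (s.symm' (mem_cls.1 hz'))))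
  have h5 := Finset.card_le_card (Finset.union_subset h1 h2)
  rw [Finset.card_union_of_disjoint hd] at h5
  rw [pow_succ]; omega

theorem Inv.bot (B : Finset V) : Inv B 0 (⊥ : Setoid V) := by
  intro x _
  rw [pow_zero, Nat.one_le_iff_ne_zero, Finset.card_ne_zero]
  exact ⟨x, self_mem_cls _ x⟩

/-! ### The transition operator -/

/-- probability of the choice `π` -/
noncomputable def wt (W : Sym2 V → ℝ) (B : Finset V) (s : Setoid V)
    (π : {D // D ∈ active B s} → V × V) : ℝ :=
  ∏ D, W s((π D).1, (π D).2) / bd W D.1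

/-- one round of random contraction -/
noncomputable def T (W : Sym2 V → ℝ) (B : Finset V) (F : Setoid V → ℝ) (s : Setoid V) : ℝ :=
  ∑ π ∈ ch B s, wt W B s π * F (join s π)

theorem wt_nonneg {W : Sym2 V → ℝ} (hW : ∀ e, 0 ≤ W e) {B : Finset V} {s : Setoid V}
    (π : {D // D ∈ active B s} → V × V) : 0 ≤ wt W B s π :=
  Finset.prod_nonneg fun _ _ => div_nonneg (hW _) (bd_nonneg hW _)

theorem sum_wt (W : Sym2 V → ℝ) (B : Finset V) (s : Setoid V) :
    ∑ π ∈ ch B s, wt W B s π = ∏ D : {D // D ∈ active B s}, bd W D.1 / bd W D.1 := by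
  unfold wt ch
  rw [← Finset.prod_univ_sum (fun D : {D // D ∈ active B s} => D.1 ×ˢ D.1ᶜ)
    (fun D p => W s(p.1, p.2) / bd W D.1)]
  refine Finset.prod_congr rfl fun D _ => ?_
  rw [← Finset.sum_div]; rfl

theorem sum_wt_le {W : Sym2 V → ℝ} (B : Finset V) (s : Setoid V) :
    ∑ π ∈ ch B s, wt W B s π ≤ 1 := by
  rw [sum_wt]
  refine Finset.prod_le_one (fun D _ => ?_) (fun D _ => ?_)
  · rcases eq_or_ne (bd W D.1) 0 with h | h
    · simp [h]
    · simp [h]
  · exact div_self_le_one _

theorem T_le {W : Sym2 V → ℝ} (hW : ∀ e, 0 ≤ W e) {B : Finset V} {F : Setoid V → ℝ}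
    {s : Setoid V} {C : ℝ} (hC : 0 ≤ C) (h : ∀ π ∈ ch B s, F (join s π) ≤ C) :
    T W B F s ≤ C := by
  calc T W B F s ≤ ∑ π ∈ ch B s, wt W B s π * C :=
        Finset.sum_le_sum fun π hπ => mul_le_mul_of_nonneg_left (h π hπ) (wt_nonneg hW π)
    _ = (∑ π ∈ ch B s, wt W B s π) * C := by rw [Finset.sum_mul]
    _ ≤ 1 * C := mul_le_mul_of_nonneg_right (sum_wt_le B s) hC
    _ = C := one_mul C

theorem T_nonneg {W : Sym2 V → ℝ} (hW : ∀ e, 0 ≤ W e) {B : Finset V} {F : Setoid V → ℝ}
    (hF : ∀ s, 0 ≤ F s) (s : Setoid V) : 0 ≤ T W B F s :=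
  Finset.sum_nonneg fun π _ => mul_nonneg (wt_nonneg hW π) (hF _)

/-- the choices that do not cross `A` -/
noncomputable def ch' (B A : Finset V) (s : Setoid V) :
    Finset ({D // D ∈ active B s} → V × V) :=
  Fintype.piFinset (fun D : {D // D ∈ active B s} =>
    (D.1 ×ˢ D.1ᶜ).filter (fun p => p.1 ∈ A ↔ p.2 ∈ A))

theorem mem_ch' {B A : Finset V} {s : Setoid V} {π : {D // D ∈ active B s} → V × V} :
    π ∈ ch' B A s ↔ π ∈ ch B s ∧ ∀ D, ((π D).1 ∈ A ↔ (π D).2 ∈ A) := by
  simp only [ch', ch, Fintype.mem_piFinset, Finset.mem_filter, ← forall_and]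

theorem ch'_subset {B A : Finset V} {s : Setoid V} : ch' B A s ⊆ ch B s :=
  fun _ h => (mem_ch'.1 h).1

theorem sum_wt' (W : Sym2 V → ℝ) (B A : Finset V) (s : Setoid V) :
    ∑ π ∈ ch' B A s, wt W B s π = ∏ D : {D // D ∈ active B s}, sb W A D.1 / bd W D.1 := by
  unfold wt ch'
  rw [← Finset.prod_univ_sum (fun D : {D // D ∈ active B s} =>
    (D.1 ×ˢ D.1ᶜ).filter (fun p => p.1 ∈ A ↔ p.2 ∈ A))
    (fun D p => W s(p.1, p.2) / bd W D.1)]
  refine Finset.prod_congr rfl fun D _ => ?_
  rw [← Finset.sum_div]; rfl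

/-- probability that, within `k` rounds, the class of `o` becomes exactly `A` -/
noncomputable def Q (W : Sym2 V → ℝ) (B : Finset V) (o : V) (A : Finset V) : ℕ → Setoid V → ℝ
  | 0, s => if cls s o = A then 1 else 0
  | k + 1, s => if cls s o = A then 1 else T W B (Q W B o A k) s

theorem Q_zero (W : Sym2 V → ℝ) (B : Finset V) (o : V) (A : Finset V) (s : Setoid V) :
    Q W B o A 0 s = if cls s o = A then 1 else 0 := rfl

theorem Q_succ (W : Sym2 V → ℝ) (B : Finset V) (o : V) (A : Finset V) (k : ℕ) (s : Setoid V) :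
    Q W B o A (k + 1) s = if cls s o = A then 1 else T W B (Q W B o A k) s := rfl

theorem Q_nonneg {W : Sym2 V → ℝ} (hW : ∀ e, 0 ≤ W e) {B : Finset V} {o : V} {A : Finset V}
    (k : ℕ) (s : Setoid V) : 0 ≤ Q W B o A k s := by
  induction k generalizing s with
  | zero => rw [Q_zero]; split_ifs <;> norm_num
  | succ k ih =>
    rw [Q_succ]; split_ifs
    · norm_num
    · exact T_nonneg hW ih s

theorem Q_le_one {W : Sym2 V → ℝ} (hW : ∀ e, 0 ≤ W e) {B : Finset V} {o : V} {A : Finset V}
    (k : ℕ) (s : Setoid V) : Q W B o A k s ≤ 1 := by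
  induction k generalizing s with
  | zero => rw [Q_zero]; split_ifs <;> norm_num
  | succ k ih =>
    rw [Q_succ]; split_ifs
    · norm_num
    · exact T_le hW zero_le_one fun π _ => ih _

theorem Q_eq_zero {W : Sym2 V → ℝ} {B : Finset V} {o : V} {A : Finset V}
    (k : ℕ) (s : Setoid V) (hs : ¬ Sat A s) : Q W B o A k s = 0 := by
  have hne : ∀ s : Setoid V, ¬ Sat A s → cls s o ≠ A := by
    intro s hs h
    apply hs
    intro x y hxy
    rw [← h, mem_cls, mem_cls]
    exact ⟨fun h' => s.trans' h' hxy, fun h' => s.trans' h' (s.symm' hxy)⟩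
  induction k generalizing s with
  | zero => rw [Q_zero, if_neg (hne s hs)]
  | succ k ih =>
    rw [Q_succ, if_neg (hne s hs)]
    refine Finset.sum_eq_zero fun π _ => ?_
    rw [ih _ fun h => hs (h.mono (le_join s π)), mul_zero]

/-! ### The upper bound -/

open Classical in
/-- the sets containing `o` and not meeting `B` -/
noncomputable def fam (B : Finset V) (o : V) : Finset (Finset V) :=
  univ.filter (fun A => o ∈ A ∧ Disjoint A B)

theorem mem_fam {B : Finset V} {o : V} {A : Finset V} :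
    A ∈ fam B o ↔ o ∈ A ∧ Disjoint A B := by simp [fam]

theorem upper_zero {B : Finset V} {o : V} {r : ℕ} {s : Setoid V} (hs : Inv B r s)
    {w : Sym2 V → ℝ} {η : ℝ} (hη : 0 ≤ η) {ψ : ℕ → ℝ}
    (hψ : ∀ r D, D.Nonempty → Disjoint D B → 2 ^ r ≤ D.card → ψ r ≤ bd w D) :
    ∑ A ∈ fam B o, (if cls s o = A then (1 : ℝ) else 0) * Real.exp (-η * bd w A) ≤
      Real.exp (-η * ψ r) := by
  by_cases h : cls s o ∈ fam B o
  · rw [Finset.sum_eq_single_of_mem (cls s o) h]
    · rw [if_pos rfl, one_mul]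
      apply Real.exp_le_exp.2
      have h1 := hψ r (cls s o) ⟨o, self_mem_cls s o⟩ (mem_fam.1 h).2 (hs o (mem_fam.1 h).2)
      nlinarith
    · intro A _ hA
      rw [if_neg hA.symm, zero_mul]
  · rw [Finset.sum_eq_zero]
    · exact (Real.exp_pos _).le
    · intro A hA
      rw [if_neg, zero_mul]
      rintro rfl
      exact h hA

theorem upper {W : Sym2 V → ℝ} (hW : ∀ e, 0 ≤ W e) {B : Finset V} {o : V}
    {w : Sym2 V → ℝ} {η : ℝ} (hη : 0 ≤ η) {ψ : ℕ → ℝ}
    (hψ : ∀ r D, D.Nonempty → Disjoint D B → 2 ^ r ≤ D.card → ψ r ≤ bd w D)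
    (k r : ℕ) (s : Setoid V) (hs : Inv B r s) :
    ∑ A ∈ fam B o, Q W B o A k s * Real.exp (-η * bd w A) ≤
      ∑ j ∈ range (k + 1), Real.exp (-η * ψ (r + j)) := by
  induction k generalizing r s with
  | zero =>
    simp only [Q_zero, zero_add, Finset.range_one, Finset.sum_singleton, add_zero]
    exact upper_zero hs hη hψ
  | succ k ih =>
    have h1 : ∀ A ∈ fam B o, Q W B o A (k + 1) s * Real.exp (-η * bd w A) ≤
        (if cls s o = A then (1 : ℝ) else 0) * Real.exp (-η * bd w A) +
          T W B (Q W B o A k) s * Real.exp (-η * bd w A) := by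
      intro A _
      rw [← add_mul]
      refine mul_le_mul_of_nonneg_right ?_ (Real.exp_pos _).le
      rw [Q_succ]
      have := T_nonneg hW (B := B) (Q_nonneg hW (B := B) (o := o) (A := A) k) s
      split_ifs <;> linarith
    refine (Finset.sum_le_sum h1).trans ?_
    rw [Finset.sum_add_distrib, Finset.sum_range_succ', add_comm]
    refine add_le_add ?_ (by simpa using upper_zero hs hη hψ)
    have h2 : ∑ A ∈ fam B o, T W B (Q W B o A k) s * Real.exp (-η * bd w A) =
        T W B (fun s' => ∑ A ∈ fam B o, Q W B o A k s' * Real.exp (-η * bd w A)) s := by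
      unfold T
      simp only [Finset.sum_mul, Finset.mul_sum]
      rw [Finset.sum_comm]
      refine Finset.sum_congr rfl fun π _ => Finset.sum_congr rfl fun A _ => by ring
    rw [h2]
    refine T_le hW (Finset.sum_nonneg fun _ _ => (Real.exp_pos _).le) fun π hπ => ?_
    have h3 := ih (r + 1) (join s π) (hs.join hπ)
    refine h3.trans (le_of_eq (Finset.sum_congr rfl fun j _ => ?_))
    rw [add_right_comm, add_assoc]

/-! ### The lower bound -/

theorem isCls_of_card {B A : Finset V} {o : V} (ho : o ∈ A) (hAB : Disjoint A B) {r : ℕ}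
    {s : Setoid V} (hs : Inv B r s) (hA : Sat A s) (hcard : A.card < 2 ^ (r + 1)) :
    cls s o = A := by
  have hsub : ∀ x ∈ A, cls s x ⊆ A := fun x hx y hy => (hA x y (mem_cls.1 hy)).1 hx
  refine subset_antisymm (hsub o ho) fun y hy => ?_
  by_contra hno
  have hd : Disjoint (cls s o) (cls s y) := by
    rw [Finset.disjoint_left]
    intro z hz hz'
    exact hno (mem_cls.2 (s.trans' (mem_cls.1 hz) (s.symm' (mem_cls.1 hz'))))
  have h3 := hs o (hAB.mono_left (hsub o ho))
  have h4 := hs y (hAB.mono_left (hsub y hy))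
  have h5 := Finset.card_le_card (Finset.union_subset (hsub o ho) (hsub y hy))
  rw [Finset.card_union_of_disjoint hd] at h5
  rw [pow_succ] at hcard; omega

/-- a class on which the choice is made lies strictly inside `A` or outside `A` -/
theorem side {B A : Finset V} {o : V} (ho : o ∈ A) {s : Setoid V} (hA : Sat A s)
    (hne : cls s o ≠ A) {D : Finset V} (hD : D ∈ active B s) : D ⊂ A ∨ Disjoint D A := by
  obtain ⟨⟨x, rfl⟩, _⟩ := mem_active.1 hD
  by_cases hx : x ∈ A
  · left
    have hsub : cls s x ⊆ A := fun y hy => (hA x y (mem_cls.1 hy)).1 hx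
    refine (Finset.ssubset_iff_subset_ne).2 ⟨hsub, fun h => hne ?_⟩
    rw [← h] at ho
    rw [← h, ← cls_eq (mem_cls.1 ho)]
  · right
    rw [Finset.disjoint_left]
    intro y hy hy'
    exact hx ((hA x y (mem_cls.1 hy)).2 hy')

theorem lower {W : Sym2 V → ℝ} (hW : ∀ e, 0 ≤ W e) {B A : Finset V} {o : V} (ho : o ∈ A)
    (hAB : Disjoint A B) {κ : ℕ → ℝ} (hκ : ∀ r, 0 ≤ κ r)
    (hreg : ∀ r D, D.Nonempty → Disjoint D B → 2 ^ r ≤ D.card → (D ⊂ A ∨ Disjoint D A) →
      Real.exp (-κ r * ob W A D) ≤ sb W A D / bd W D)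
    (k r : ℕ) (s : Setoid V) (hs : Inv B r s) (hA : Sat A s)
    (hcard : A.card < 2 ^ (r + k + 1)) :
    Real.exp (-(2 * bd W A) * ∑ j ∈ range k, κ (r + j)) ≤ Q W B o A k s := by
  have hbd := bd_nonneg hW A
  induction k generalizing r s with
  | zero =>
    rw [Q_zero, if_pos (isCls_of_card ho hAB hs hA hcard)]
    simp
  | succ k ih =>
    rw [Q_succ]
    by_cases h : cls s o = A
    · rw [if_pos h, Real.exp_le_one_iff]
      have := Finset.sum_nonneg (s := range (k + 1)) fun j _ => hκ (r + j)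
      nlinarith
    · rw [if_neg h]
      have h1 : ∀ π ∈ ch' B A s, Real.exp (-(2 * bd W A) * ∑ j ∈ range k, κ (r + 1 + j)) ≤
          Q W B o A k (join s π) := by
        intro π hπ
        have hπ' := mem_ch'.1 hπ
        refine ih (r + 1) (join s π) (hs.join hπ'.1) (hA.join hπ'.2) ?_
        rw [show r + 1 + k + 1 = r + (k + 1) + 1 by ring]; exact hcard
      have h2 : (∑ π ∈ ch' B A s, wt W B s π) *
          Real.exp (-(2 * bd W A) * ∑ j ∈ range k, κ (r + 1 + j)) ≤ T W B (Q W B o A k) s := by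
        rw [Finset.sum_mul]
        refine (Finset.sum_le_sum fun π hπ =>
          mul_le_mul_of_nonneg_left (h1 π hπ) (wt_nonneg hW π)).trans ?_
        exact Finset.sum_le_sum_of_subset_of_nonneg ch'_subset
          fun π _ _ => mul_nonneg (wt_nonneg hW π) (Q_nonneg hW _ _)
      have h3 : Real.exp (-(2 * bd W A) * κ r) ≤ ∑ π ∈ ch' B A s, wt W B s π := by
        rw [sum_wt']
        calc Real.exp (-(2 * bd W A) * κ r)
            ≤ Real.exp (∑ D : {D // D ∈ active B s}, -κ r * ob W A D.1) := by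
              apply Real.exp_le_exp.2
              rw [← Finset.mul_sum]
              have e : ∑ D : {D // D ∈ active B s}, ob W A D.1 = ∑ D ∈ active B s, ob W A D :=
                Finset.sum_coe_sort (active B s) (fun D => ob W A D)
              rw [e]
              have := sum_ob_le hW A B s
              nlinarith [hκ r]
          _ = ∏ D : {D // D ∈ active B s}, Real.exp (-κ r * ob W A D.1) := Real.exp_sum _ _
          _ ≤ ∏ D : {D // D ∈ active B s}, sb W A D.1 / bd W D.1 := by
              refine Finset.prod_le_prod (fun _ _ => (Real.exp_pos _).le) fun D _ => ?_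
              obtain ⟨⟨x, hx⟩, hDB⟩ := mem_active.1 D.2
              refine hreg r D.1 ⟨x, hx ▸ self_mem_cls s x⟩ hDB ?_ (side ho hA h D.2)
              rw [← hx]; exact hs x (hx ▸ hDB)
      refine le_trans ?_ h2
      refine le_trans ?_ (mul_le_mul_of_nonneg_right h3 (Real.exp_pos _).le)
      rw [← Real.exp_add]
      apply Real.exp_le_exp.2
      rw [Finset.sum_range_succ', add_zero]
      have : ∑ j ∈ range k, κ (r + (j + 1)) = ∑ j ∈ range k, κ (r + 1 + j) :=
        Finset.sum_congr rfl fun j _ => by rw [add_right_comm, add_assoc]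
      rw [this]
      apply le_of_eq; ring

/-! ### Comparison of two weights -/

theorem sb_congr {W W' : Sym2 V → ℝ} {A : Finset V}
    (h : ∀ x y, (x ∈ A ↔ y ∈ A) → W s(x, y) = W' s(x, y)) (D : Finset V) :
    sb W A D = sb W' A D := by
  refine Finset.sum_congr rfl fun p hp => ?_
  exact h _ _ (Finset.mem_filter.1 hp).2

theorem compare {W0 W : Sym2 V → ℝ} (hW0 : ∀ e, 0 ≤ W0 e) (hle : ∀ e, W0 e ≤ W e)
    {B A : Finset V} {o : V}
    (hsame : ∀ x y, (x ∈ A ↔ y ∈ A) → W0 s(x, y) = W s(x, y)) {ψ : ℕ → ℝ}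
    (hψ0 : ∀ r, 0 < ψ r)
    (hψ : ∀ r D, D.Nonempty → Disjoint D B → 2 ^ r ≤ D.card → ψ r ≤ bd W0 D)
    (k r : ℕ) (s : Setoid V) (hs : Inv B r s) :
    Real.exp (-(2 * (bd W A - bd W0 A)) * ∑ j ∈ range k, (ψ (r + j))⁻¹) *
      Q W0 B o A k s ≤ Q W B o A k s := by
  have hW : ∀ e, 0 ≤ W e := fun e => (hW0 e).trans (hle e)
  have hδ : 0 ≤ bd W A - bd W0 A := sub_nonneg.2 (bd_mono hle A)
  set δ := bd W A - bd W0 A with hδdef
  induction k generalizing r s with
  | zero => simp [Q_zero]
  | succ k ih =>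
    rw [Q_succ, Q_succ]
    by_cases h : cls s o = A
    · rw [if_pos h, if_pos h, mul_one, Real.exp_le_one_iff]
      have := Finset.sum_nonneg (s := range (k + 1)) fun j _ => (inv_pos.2 (hψ0 (r + j))).le
      nlinarith
    · rw [if_neg h, if_neg h]
      -- the weights of admissible choices
      have hwt : ∀ π ∈ ch' B A s,
          Real.exp (-(2 * δ) * (ψ r)⁻¹) * wt W0 B s π ≤ wt W B s π := by
        intro π hπ
        have hπ' := mem_ch'.1 hπ
        have key : ∀ D : {D // D ∈ active B s},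
            Real.exp (-(ψ r)⁻¹ * (ob W A D.1 - ob W0 A D.1)) *
              (W0 s((π D).1, (π D).2) / bd W0 D.1) ≤ W s((π D).1, (π D).2) / bd W D.1 := by
          intro D
          obtain ⟨⟨x, hx⟩, hDB⟩ := mem_active.1 D.2
          have h1 : ψ r ≤ bd W0 D.1 := hψ r D.1 ⟨x, hx ▸ self_mem_cls s x⟩ hDB
            (hx ▸ hs x (hx ▸ hDB))
          have h0 := hψ0 r
          have h2 : bd W D.1 = bd W0 D.1 + (ob W A D.1 - ob W0 A D.1) := by
            rw [← sb_add_ob W A, ← sb_add_ob W0 A, sb_congr hsame]; ring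
          have h3 : 0 ≤ ob W A D.1 - ob W0 A D.1 :=
            sub_nonneg.2 (Finset.sum_le_sum fun _ _ => hle _)
          rw [hsame _ _ (hπ'.2 D), h2]
          set β := bd W0 D.1
          set ν := ob W A D.1 - ob W0 A D.1
          set u := W s((π D).1, (π D).2)
          have hu : 0 ≤ u := hW _
          have h4 : Real.exp (-(ψ r)⁻¹ * ν) * (β + ν) ≤ β := by
            have h5 : β + ν ≤ β * Real.exp ((ψ r)⁻¹ * ν) := by
              have h6 : (ψ r)⁻¹ * ν + 1 ≤ Real.exp ((ψ r)⁻¹ * ν) := Real.add_one_le_exp _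
              have h7 : β * ((ψ r)⁻¹ * ν + 1) ≤ β * Real.exp ((ψ r)⁻¹ * ν) :=
                mul_le_mul_of_nonneg_left h6 (by linarith)
              have h8 : ν ≤ β * ((ψ r)⁻¹ * ν) := by
                rw [← mul_assoc]
                have : 1 ≤ β * (ψ r)⁻¹ := by
                  rw [← div_eq_mul_inv, one_le_div h0]; exact h1
                nlinarith
              linarith
            have h9 : Real.exp (-(ψ r)⁻¹ * ν) * Real.exp ((ψ r)⁻¹ * ν) = 1 := by
              rw [← Real.exp_add]; simp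
            calc Real.exp (-(ψ r)⁻¹ * ν) * (β + ν)
                ≤ Real.exp (-(ψ r)⁻¹ * ν) * (β * Real.exp ((ψ r)⁻¹ * ν)) :=
                  mul_le_mul_of_nonneg_left h5 (Real.exp_pos _).le
              _ = β * (Real.exp (-(ψ r)⁻¹ * ν) * Real.exp ((ψ r)⁻¹ * ν)) := by ring
              _ = β := by rw [h9, mul_one]
          have hβ : 0 < β := by linarith
          rw [← mul_div_assoc, div_le_div_iff₀ hβ (by linarith)]
          nlinarith [Real.exp_pos (-(ψ r)⁻¹ * ν)]
        calc Real.exp (-(2 * δ) * (ψ r)⁻¹) * wt W0 B s π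
            ≤ (∏ D : {D // D ∈ active B s},
                Real.exp (-(ψ r)⁻¹ * (ob W A D.1 - ob W0 A D.1))) * wt W0 B s π := by
              refine mul_le_mul_of_nonneg_right ?_ (wt_nonneg hW0 π)
              rw [← Real.exp_sum]
              apply Real.exp_le_exp.2
              rw [← Finset.mul_sum]
              have e : ∑ D : {D // D ∈ active B s}, (ob W A D.1 - ob W0 A D.1) =
                  ∑ D ∈ active B s, ob (fun e => W e - W0 e) A D := by
                rw [← Finset.sum_coe_sort (active B s) (fun D => ob (fun e => W e - W0 e) A D)]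
                refine Finset.sum_congr rfl fun D _ => ?_
                unfold ob; rw [Finset.sum_sub_distrib]
              rw [e]
              have h5 := sum_ob_le (W := fun e => W e - W0 e)
                (fun e => sub_nonneg.2 (hle e)) A B s
              have h6 : bd (fun e => W e - W0 e) A = δ := by
                rw [hδdef]; unfold bd; rw [Finset.sum_sub_distrib]
              rw [h6] at h5
              have h0 := inv_pos.2 (hψ0 r)
              nlinarith
          _ = ∏ D : {D // D ∈ active B s},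
                (Real.exp (-(ψ r)⁻¹ * (ob W A D.1 - ob W0 A D.1)) *
                  (W0 s((π D).1, (π D).2) / bd W0 D.1)) := by
              rw [Finset.prod_mul_distrib]; rfl
          _ ≤ wt W B s π := by
              refine Finset.prod_le_prod (fun D _ => ?_) fun D _ => key D
              exact mul_nonneg (Real.exp_pos _).le (div_nonneg (hW0 _) (bd_nonneg hW0 _))
      have hT0 : T W0 B (Q W0 B o A k) s = ∑ π ∈ ch' B A s, wt W0 B s π *
          Q W0 B o A k (join s π) := by
        unfold T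
        symm
        refine Finset.sum_subset ch'_subset fun π hπ hπ' => ?_
        rw [Q_eq_zero, mul_zero]
        intro hsat
        apply hπ'
        rw [mem_ch']
        exact ⟨hπ, fun D => hsat _ _ (join_rel s π D)⟩
      have hT : ∑ π ∈ ch' B A s, wt W B s π * Q W B o A k (join s π) ≤
          T W B (Q W B o A k) s :=
        Finset.sum_le_sum_of_subset_of_nonneg ch'_subset
          fun π _ _ => mul_nonneg (wt_nonneg hW π) (Q_nonneg hW _ _)
      refine le_trans ?_ hT
      rw [hT0, Finset.mul_sum]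
      refine Finset.sum_le_sum fun π hπ => ?_
      have h1 := ih (r + 1) (join s π) (hs.join (mem_ch'.1 hπ).1)
      have h2 := hwt π hπ
      have e : Real.exp (-(2 * δ) * ∑ j ∈ range (k + 1), (ψ (r + j))⁻¹) =
          Real.exp (-(2 * δ) * (ψ r)⁻¹) *
            Real.exp (-(2 * δ) * ∑ j ∈ range k, (ψ (r + 1 + j))⁻¹) := by
        rw [← Real.exp_add, Finset.sum_range_succ', add_zero]
        have : ∑ j ∈ range k, (ψ (r + (j + 1)))⁻¹ = ∑ j ∈ range k, (ψ (r + 1 + j))⁻¹ :=
          Finset.sum_congr rfl fun j _ => by rw [add_right_comm, add_assoc]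
        rw [this]; congr 1; ring
      rw [e]
      calc Real.exp (-(2 * δ) * (ψ r)⁻¹) *
            Real.exp (-(2 * δ) * ∑ j ∈ range k, (ψ (r + 1 + j))⁻¹) *
            (wt W0 B s π * Q W0 B o A k (join s π))
          = (Real.exp (-(2 * δ) * (ψ r)⁻¹) * wt W0 B s π) *
            (Real.exp (-(2 * δ) * ∑ j ∈ range k, (ψ (r + 1 + j))⁻¹) *
              Q W0 B o A k (join s π)) := by ring
        _ ≤ wt W B s π * Q W B o A k (join s π) :=
          mul_le_mul h2 h1 (mul_nonneg (Real.exp_pos _).le (Q_nonneg hW0 _ _))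
            (wt_nonneg hW π)

/-! ### Regularity of a minimal closed set -/

theorem two_bd (w : Sym2 V → ℝ) (S : Finset V) :
    2 * bd w S = ∑ p : V × V, if ¬ (p.1 ∈ S ↔ p.2 ∈ S) then w s(p.1, p.2) else 0 := by
  rw [← sum_opp, Fintype.sum_prod_type]
  refine Finset.sum_congr rfl fun x _ => ?_
  unfold opp
  rw [Finset.sum_filter]

theorem two_ob (w : Sym2 V → ℝ) (A D : Finset V) :
    2 * ob w A D = ∑ p : V × V,
      if ¬ (p.1 ∈ D ↔ p.2 ∈ D) ∧ ¬ (p.1 ∈ A ↔ p.2 ∈ A) then w s(p.1, p.2) else 0 := by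
  have h1 : ob w A D = ∑ p : V × V,
      if (p.1 ∈ D ∧ p.2 ∉ D) ∧ ¬ (p.1 ∈ A ↔ p.2 ∈ A) then w s(p.1, p.2) else 0 := by
    unfold ob
    rw [← Finset.sum_filter]
    refine Finset.sum_congr ?_ fun _ _ => rfl
    ext p; simp
  have h2 : ob w A D = ∑ p : V × V,
      if (p.2 ∈ D ∧ p.1 ∉ D) ∧ ¬ (p.1 ∈ A ↔ p.2 ∈ A) then w s(p.1, p.2) else 0 := by
    rw [h1, ← (Equiv.prodComm V V).sum_comp]
    refine Finset.sum_congr rfl fun p _ => ?_
    simp only [Equiv.prodComm_apply, Prod.fst_swap, Prod.snd_swap]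
    rw [Sym2.eq_swap]
    congr 1
    simp only [eq_iff_iff]; tauto
  rw [two_mul]
  nth_rw 1 [h1]
  rw [h2, ← Finset.sum_add_distrib]
  refine Finset.sum_congr rfl fun p _ => ?_
  by_cases ha : p.1 ∈ D <;> by_cases hb : p.2 ∈ D <;> simp [ha, hb]

theorem bd_symmDiff (w : Sym2 V → ℝ) (A D : Finset V) :
    bd w (symmDiff A D) = bd w A + sb w A D - ob w A D := by
  have h1 := sb_add_ob w A D
  have h2 : 2 * bd w (symmDiff A D) = 2 * bd w A + 2 * bd w D - 2 * (2 * ob w A D) := by
    rw [two_bd, two_bd, two_bd, two_ob, ← Finset.sum_add_distrib, Finset.mul_sum,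
      ← Finset.sum_sub_distrib]
    refine Finset.sum_congr rfl fun p _ => ?_
    by_cases ha : p.1 ∈ A <;> by_cases hb : p.2 ∈ A <;> by_cases hc : p.1 ∈ D <;>
      by_cases hd : p.2 ∈ D <;> simp [ha, hb, hc, hd, Finset.mem_symmDiff] <;> ring
  linarith

/-- weights with a bonus for the open pairs -/
def boost (w : Sym2 V → ℝ) (τ : ℝ) (c : Sym2 V → Bool) (e : Sym2 V) : ℝ :=
  w e + if c e then τ else 0

/-- no open pair leaves `A` -/
def Clo (c : Sym2 V → Bool) (A : Finset V) : Prop := ∀ x ∈ A, ∀ y ∉ A, c s(x, y) = false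

theorem Clo.cross {c : Sym2 V → Bool} {A : Finset V} (h : Clo c A) {x y : V}
    (hxy : ¬ (x ∈ A ↔ y ∈ A)) : c s(x, y) = false := by
  by_cases hx : x ∈ A
  · exact h x hx y (by tauto)
  · rw [Sym2.eq_swap]; exact h y (by tauto) x hx

theorem Clo.symmDiff {c : Sym2 V → Bool} {A D : Finset V} (h : Clo c A) (h' : Clo c D) :
    Clo c (symmDiff A D) := by
  intro x hx y hy
  by_cases hA : x ∈ A ↔ y ∈ A
  · refine h'.cross ?_
    rw [Finset.mem_symmDiff] at hx hy
    tauto
  · exact h.cross hA

theorem regular {w : Sym2 V → ℝ} {τ : ℝ} {c : Sym2 V → Bool} (hw : ∀ e, 0 ≤ w e) (hτ : 0 < τ)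
    {A B : Finset V} {o : V} (ho : o ∈ A) (hAB : Disjoint A B) (hc : Clo c A)
    (hmin : ∀ U, o ∈ U → Disjoint U B → Clo c U → bd w A ≤ bd w U) {ψ0 : ℝ}
    (hψ : ∀ D : Finset V, D.Nonempty → Disjoint D B → ψ0 ≤ bd w D) {D : Finset V}
    (hDB : Disjoint D B) (hside : D ⊂ A ∨ Disjoint D A) :
    ob (boost w τ c) A D ≤ sb (boost w τ c) A D ∨ min τ (ψ0 / 2) ≤ sb (boost w τ c) A D := by
  have hW : ∀ e, w e ≤ boost w τ c e := by
    intro e; unfold boost; split_ifs <;> linarith
  have hob : ob (boost w τ c) A D = ob w A D := by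
    refine Finset.sum_congr rfl fun p hp => ?_
    unfold boost
    rw [hc.cross (Finset.mem_filter.1 hp).2]; simp
  by_cases hopen : ∃ p ∈ (D ×ˢ Dᶜ).filter (fun p : V × V => p.1 ∈ A ↔ p.2 ∈ A),
      c s(p.1, p.2) = true
  · obtain ⟨p, hp, hcp⟩ := hopen
    right
    refine (min_le_left _ _).trans ?_
    have h1 : τ ≤ boost w τ c s(p.1, p.2) := by
      unfold boost; rw [hcp]; simp [hw]
    refine h1.trans ?_
    exact Finset.single_le_sum (f := fun p : V × V => boost w τ c s(p.1, p.2))
      (fun q _ => (hw _).trans (hW _)) hp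
  · push Not at hopen
    have hsb : sb (boost w τ c) A D = sb w A D := by
      refine Finset.sum_congr rfl fun p hp => ?_
      have : c s(p.1, p.2) = false := by simpa using hopen p hp
      unfold boost; rw [this]; simp
    have hcD : Clo c D := by
      intro x hx y hy
      by_cases h : x ∈ A ↔ y ∈ A
      · have := hopen (x, y) (by simp [hx, hy, h])
        simpa using this
      · exact hc.cross h
    rw [hob, hsb]
    by_cases hoD : o ∈ D
    · -- here `D ⊂ A`
      right
      have hDA : D ⊂ A := by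
        rcases hside with h | h
        · exact h
        · exact absurd ho (Finset.disjoint_left.1 h hoD)
      have hE : (A \ D).Nonempty := by
        obtain ⟨x, hx, hx'⟩ := Finset.exists_of_ssubset hDA
        exact ⟨x, Finset.mem_sdiff.2 ⟨hx, hx'⟩⟩
      have h1 := hmin D hoD hDB hcD
      have h2 := hψ (A \ D) hE (hAB.mono_left Finset.sdiff_subset)
      have h3 := bd_symmDiff w D (A \ D)
      have h4 : symmDiff D (A \ D) = A := by
        ext x
        simp only [Finset.mem_symmDiff, Finset.mem_sdiff]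
        have h7 : x ∈ D → x ∈ A := fun h => hDA.1 h
        tauto
      rw [h4] at h3
      have h5 := sb_add_ob w D (A \ D)
      have h6 : ob w D (A \ D) ≤ sb w A D := by
        have e1 : ob w D (A \ D) = ∑ x ∈ A \ D, ∑ y ∈ D, w s(x, y) := by
          unfold ob
          rw [← Finset.sum_product']
          refine Finset.sum_congr ?_ fun _ _ => rfl
          ext p
          simp only [Finset.mem_filter, Finset.mem_product, Finset.mem_sdiff, Finset.mem_compl]
          tauto
        have e2 : sb w A D = ∑ x ∈ D, ∑ y ∈ A \ D, w s(x, y) := by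
          unfold sb
          rw [← Finset.sum_product']
          refine Finset.sum_congr ?_ fun _ _ => rfl
          ext p
          simp only [Finset.mem_filter, Finset.mem_product, Finset.mem_sdiff, Finset.mem_compl]
          have h7 : p.1 ∈ D → p.1 ∈ A := fun h => hDA.1 h
          tauto
        rw [e1, e2, Finset.sum_comm]
        refine le_of_eq (Finset.sum_congr rfl fun x _ => Finset.sum_congr rfl fun y _ => ?_)
        rw [Sym2.eq_swap]
      refine (min_le_right _ _).trans ?_
      linarith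
    · left
      have hoU : o ∈ symmDiff A D := Finset.mem_symmDiff.2 (Or.inl ⟨ho, hoD⟩)
      have hUB : Disjoint (symmDiff A D) B := by
        rw [Finset.disjoint_left]
        intro x hx hxB
        rcases Finset.mem_symmDiff.1 hx with ⟨h, _⟩ | ⟨h, _⟩
        · exact Finset.disjoint_left.1 hAB h hxB
        · exact Finset.disjoint_left.1 hDB h hxB
      have h1 := hmin _ hoU hUB (hc.symmDiff hcD)
      rw [bd_symmDiff] at h1
      linarith

theorem real_ineq {n b ψ b0 κ : ℝ} (hn : 0 ≤ n) (hb0 : 0 < b0) (hψ : 0 < ψ) (hnb : ψ ≤ n + b)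
    (h : n ≤ b ∨ b0 ≤ b) (h1 : 2 / ψ ≤ κ) (h2 : 2 / ψ * Real.log (1 + ψ / (2 * b0)) ≤ κ) :
    Real.exp (-κ * n) ≤ b / (n + b) := by
  have key : ∀ β : ℝ, 0 < β → 1 + n / β ≤ Real.exp (κ * n) → Real.exp (-κ * n) ≤ β / (n + β) := by
    intro β hβ h3
    rw [le_div_iff₀ (by linarith)]
    have h4 : Real.exp (-κ * n) * Real.exp (κ * n) = 1 := by rw [← Real.exp_add]; simp
    have h5 : n + β = β * (1 + n / β) := by field_simp; ring
    rw [h5]
    calc Real.exp (-κ * n) * (β * (1 + n / β))
        ≤ Real.exp (-κ * n) * (β * Real.exp (κ * n)) := by gcongr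
      _ = β * (Real.exp (-κ * n) * Real.exp (κ * n)) := by ring
      _ = β := by rw [h4, mul_one]
  rcases le_or_gt n b with hb | hb
  · have hb' : ψ / 2 ≤ b := by linarith
    have hbpos : 0 < b := by linarith
    refine key b hbpos ?_
    have h3 : n / b + 1 ≤ Real.exp (n / b) := Real.add_one_le_exp _
    have h4 : n / b ≤ κ * n := by
      rw [div_le_iff₀ hbpos]
      have hκ : 0 ≤ κ := (by positivity : (0 : ℝ) ≤ 2 / ψ).trans h1
      have h5 : 1 ≤ κ * b := by
        calc (1 : ℝ) = 2 / ψ * (ψ / 2) := by field_simp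
          _ ≤ κ * b := by gcongr
      nlinarith
    linarith [Real.exp_le_exp.2 h4]
  · have hb1 : b0 ≤ b := by
      rcases h with h | h
      · linarith
      · exact h
    have hbpos : 0 < b := by linarith
    have hm : ψ / 2 ≤ n := by linarith
    refine key b hbpos ?_
    have h3 : n / b ≤ n / b0 := by gcongr
    have h4 : 1 ≤ n / (ψ / 2) := by rw [one_le_div (by linarith)]; exact hm
    have h5 : -1 ≤ ψ / 2 / b0 := by
      have : 0 ≤ ψ / 2 / b0 := by positivity
      linarith
    have h6 := one_add_mul_self_le_rpow_one_add h5 h4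
    have h7 : n / (ψ / 2) * (ψ / 2 / b0) = n / b0 := by field_simp
    rw [h7] at h6
    have h8 : (0 : ℝ) < 1 + ψ / 2 / b0 := by positivity
    have h9 : (1 + ψ / 2 / b0) ^ (n / (ψ / 2)) ≤ Real.exp (κ * n) := by
      rw [Real.rpow_def_of_pos h8]
      apply Real.exp_le_exp.2
      have e : Real.log (1 + ψ / 2 / b0) * (n / (ψ / 2)) =
          (2 / ψ * Real.log (1 + ψ / (2 * b0))) * n := by
        have : ψ / 2 / b0 = ψ / (2 * b0) := by field_simp
        rw [this]; field_simp
      rw [e]
      exact mul_le_mul_of_nonneg_right h2 hn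
    linarith

end Basic

/-! ### Product measures on configurations -/

section Conf

variable {E : Type*} [Fintype E] [DecidableEq E]

/-- the probability of a configuration; `q e` is the probability that `e` is closed -/
def pr (q : E → ℝ) (c : E → Bool) : ℝ := ∏ e, if c e then 1 - q e else q e

theorem pr_nonneg {q : E → ℝ} (hq : ∀ e, 0 ≤ q e ∧ q e ≤ 1) (c : E → Bool) : 0 ≤ pr q c := by
  refine Finset.prod_nonneg fun e _ => ?_
  have := hq e
  split_ifs <;> linarith

theorem flip_sum (e : E) (g : Bool → ℝ) (X : (E → Bool) → ℝ)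
    (hX : ∀ c b, X (Function.update c e b) = X c) :
    ∑ c, g (c e) * X c = (g true + g false) / 2 * ∑ c, X c := by
  have hinv : Function.Involutive (fun c : E → Bool => Function.update c e (!c e)) := by
    intro c
    simp
  have h1 : ∑ c, g (c e) * X c = ∑ c, g (!c e) * X c := by
    rw [← Equiv.sum_comp hinv.toPerm]
    refine Finset.sum_congr rfl fun c _ => ?_
    simp only [Function.Involutive.coe_toPerm, Function.update_self]
    rw [hX]
  have h2 : ∑ c, g (c e) * X c + ∑ c, g (!c e) * X c = (g true + g false) * ∑ c, X c := by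
    rw [← Finset.sum_add_distrib, Finset.mul_sum]
    refine Finset.sum_congr rfl fun c _ => ?_
    cases c e <;> simp <;> ring
  rw [← h1] at h2
  linarith

theorem resample (q : E → ℝ) (e : E) (φ : Bool → ℝ) (H : (E → Bool) → ℝ)
    (hH : ∀ c b, H (Function.update c e b) = H c) :
    ∑ c, pr q c * (φ (c e) * H c) =
      (q e * φ false + (1 - q e) * φ true) * ∑ c, pr q c * H c := by
  set X : (E → Bool) → ℝ := fun c => (∏ e' ∈ univ.erase e, if c e' then 1 - q e' else q e') * H c
    with hXdef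
  have hX : ∀ c b, X (Function.update c e b) = X c := by
    intro c b
    simp only [hXdef]
    rw [hH]
    congr 1
    refine Finset.prod_congr rfl fun e' he' => ?_
    rw [Function.update_of_ne (Finset.ne_of_mem_erase he')]
  have hpr : ∀ c, pr q c = (if c e then 1 - q e else q e) *
      ∏ e' ∈ univ.erase e, if c e' then 1 - q e' else q e' := by
    intro c
    unfold pr
    rw [Finset.mul_prod_erase univ (fun e => if c e then 1 - q e else q e) (mem_univ e)]
  have h1 := flip_sum e (fun b => (if b then 1 - q e else q e) * φ b) X hX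
  have h2 := flip_sum e (fun b => (if b then 1 - q e else q e)) X hX
  have e1 : ∑ c, pr q c * (φ (c e) * H c) =
      ∑ c, (fun b => (if b then 1 - q e else q e) * φ b) (c e) * X c := by
    refine Finset.sum_congr rfl fun c _ => ?_
    rw [hpr]; simp only [hXdef]; ring
  have e2 : ∑ c, pr q c * H c =
      ∑ c, (fun b => (if b then 1 - q e else q e)) (c e) * X c := by
    refine Finset.sum_congr rfl fun c _ => ?_
    rw [hpr]; simp only [hXdef]; ring
  rw [e1, e2, h1, h2]
  simp
  ring

/-- close all pairs of `K` -/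
def zero (K : Finset E) (c : E → Bool) : E → Bool := fun e => if e ∈ K then false else c e

/-- number of open pairs in `K` -/
def NK (K : Finset E) (c : E → Bool) : ℝ := ∑ e ∈ K, if c e then (1 : ℝ) else 0

theorem zero_insert (K : Finset E) (e : E) (c : E → Bool) :
    zero (insert e K) c = zero {e} (zero K c) := by
  ext e'
  unfold zero
  by_cases h : e' = e <;> by_cases h' : e' ∈ K <;> simp [h, h']

theorem zero_update {K : Finset E} {e : E} (he : e ∈ K) (c : E → Bool) (b : Bool) :
    zero K (Function.update c e b) = zero K c := by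
  ext e'
  unfold zero
  by_cases h : e' ∈ K
  · simp [h]
  · have : e' ≠ e := fun h' => h (h' ▸ he)
    simp [h, Function.update_of_ne this]

theorem NK_update {K : Finset E} {e : E} (he : e ∉ K) (c : E → Bool) (b : Bool) :
    NK K (Function.update c e b) = NK K c := by
  refine Finset.sum_congr rfl fun e' he' => ?_
  have : e' ≠ e := fun h' => he (h' ▸ he')
  rw [Function.update_of_ne this]

theorem zero_ineq {q : E → ℝ} (hq : ∀ e, 0 ≤ q e ∧ q e ≤ 1) {a : ℝ} (K : Finset E)
    (F : (E → Bool) → ℝ) (hF : ∀ c, 0 ≤ F c) :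
    ∑ c, pr q c * ((if ∀ e ∈ K, c e = false then (1 : ℝ) else 0) * F (zero K c)) ≤
      (∏ e ∈ K, (q e * Real.exp (a * (1 - q e)))) *
        ∑ c, pr q c * (Real.exp (-a * NK K c) * F (zero K c)) := by
  induction K using Finset.induction_on generalizing F with
  | empty => simp [NK]
  | insert e K heK ih =>
    set F' : (E → Bool) → ℝ := fun c => (if c e then 0 else 1) * F (zero {e} c) with hF'
    have h1 := ih F' (fun c => mul_nonneg (by split_ifs <;> norm_num) (hF _))
    have hz : ∀ c : E → Bool, zero K c e = c e := fun c => by simp [zero, heK]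
    have e1 : ∑ c, pr q c * ((if ∀ e' ∈ insert e K, c e' = false then (1 : ℝ) else 0) *
        F (zero (insert e K) c)) =
        ∑ c, pr q c * ((if ∀ e ∈ K, c e = false then (1 : ℝ) else 0) * F' (zero K c)) := by
      refine Finset.sum_congr rfl fun c _ => ?_
      simp only [hF', hz, zero_insert, Finset.forall_mem_insert]
      cases hce : c e <;> simp
    have e2 : ∑ c, pr q c * (Real.exp (-a * NK K c) * F' (zero K c)) =
        q e * ∑ c, pr q c * (Real.exp (-a * NK K c) * F (zero (insert e K) c)) := by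
      have h2 := resample q e (fun b => if b then 0 else 1)
        (fun c => Real.exp (-a * NK K c) * F (zero (insert e K) c)) (fun c b => by
          simp only [NK_update heK, zero_update (Finset.mem_insert_self e K)])
      simp only [if_true] at h2
      have e3 : ∑ c, pr q c * (Real.exp (-a * NK K c) * F' (zero K c)) =
          ∑ c, pr q c * ((if c e = true then 0 else 1) *
            (Real.exp (-a * NK K c) * F (zero (insert e K) c))) := by
        refine Finset.sum_congr rfl fun c _ => ?_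
        simp only [hF', hz, zero_insert]; ring
      rw [e3, h2]
      simp
    have e4 : ∑ c, pr q c * (Real.exp (-a * NK (insert e K) c) * F (zero (insert e K) c)) =
        (q e + (1 - q e) * Real.exp (-a)) *
          ∑ c, pr q c * (Real.exp (-a * NK K c) * F (zero (insert e K) c)) := by
      have h2 := resample q e (fun b => if b then Real.exp (-a) else 1)
        (fun c => Real.exp (-a * NK K c) * F (zero (insert e K) c)) (fun c b => by
          simp only [NK_update heK, zero_update (Finset.mem_insert_self e K)])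
      have e3 : ∑ c, pr q c * (Real.exp (-a * NK (insert e K) c) * F (zero (insert e K) c)) =
          ∑ c, pr q c * ((if c e = true then Real.exp (-a) else 1) *
            (Real.exp (-a * NK K c) * F (zero (insert e K) c))) := by
        refine Finset.sum_congr rfl fun c _ => ?_
        have : Real.exp (-a * NK (insert e K) c) =
            (if c e = true then Real.exp (-a) else 1) * Real.exp (-a * NK K c) := by
          unfold NK
          rw [Finset.sum_insert heK]
          cases hce : c e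
          · simp
          · simp only [if_true]
            rw [← Real.exp_add]; congr 1; ring
        rw [this]; ring
      rw [e3, h2]
      simp
    set R := ∑ c, pr q c * (Real.exp (-a * NK K c) * F (zero (insert e K) c)) with hR
    have hR0 : 0 ≤ R := Finset.sum_nonneg fun c _ =>
      mul_nonneg (pr_nonneg hq c) (mul_nonneg (Real.exp_pos _).le (hF _))
    rw [e1, e4, Finset.prod_insert heK]
    refine h1.trans ?_
    rw [e2]
    have hP : 0 ≤ ∏ e ∈ K, (q e * Real.exp (a * (1 - q e))) :=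
      Finset.prod_nonneg fun e _ => mul_nonneg (hq e).1 (Real.exp_pos _).le
    have hjen : 1 ≤ Real.exp (a * (1 - q e)) * (q e + (1 - q e) * Real.exp (-a)) := by
      -- convexity of the exponential
      have hq' := hq e
      have hc := convexOn_exp.2 (Set.mem_univ (0 : ℝ)) (Set.mem_univ (-a)) hq'.1
        (sub_nonneg.2 hq'.2) (by ring)
      simp only [smul_eq_mul, mul_zero, zero_add, Real.exp_zero, mul_one] at hc
      have h3 : Real.exp (a * (1 - q e)) * Real.exp ((1 - q e) * -a) = 1 := by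
        rw [← Real.exp_add]
        have : a * (1 - q e) + (1 - q e) * -a = 0 := by ring
        rw [this, Real.exp_zero]
      calc (1 : ℝ) = Real.exp (a * (1 - q e)) * Real.exp ((1 - q e) * -a) := h3.symm
        _ ≤ _ := mul_le_mul_of_nonneg_left hc (Real.exp_pos _).le
    calc (∏ e ∈ K, (q e * Real.exp (a * (1 - q e)))) * (q e * R)
        = ((∏ e ∈ K, (q e * Real.exp (a * (1 - q e)))) * q e * R) * 1 := by ring
      _ ≤ ((∏ e ∈ K, (q e * Real.exp (a * (1 - q e)))) * q e * R) *
          (Real.exp (a * (1 - q e)) * (q e + (1 - q e) * Real.exp (-a))) := by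
          refine mul_le_mul_of_nonneg_left hjen ?_
          exact mul_nonneg (mul_nonneg hP (hq e).1) hR0
      _ = _ := by ring

end Conf

/-! ### The main estimate on a finite set -/

section Main

theorem sum_pr {E : Type*} [Fintype E] [DecidableEq E] (q : E → ℝ) : ∑ c, pr q c = 1 := by
  have h := Finset.prod_univ_sum (fun _ : E => (univ : Finset Bool))
    (fun e b => if b then 1 - q e else q e)
  rw [Fintype.piFinset_univ] at h
  unfold pr
  rw [← h]
  simp

variable {V : Type*} [Fintype V] [DecidableEq V]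

/-- the pairs of the boundary of `A` -/
def EA (A : Finset V) : Finset (Sym2 V) := (A ×ˢ Aᶜ).image (fun p => s(p.1, p.2))

theorem injOn_EA (A : Finset V) :
    Set.InjOn (fun p : V × V => s(p.1, p.2)) (A ×ˢ Aᶜ : Finset (V × V)) := by
  rintro ⟨x, y⟩ hp ⟨x', y'⟩ hp' h
  simp only [Finset.coe_product, Set.mem_prod, Finset.mem_coe, Finset.mem_compl] at hp hp'
  rcases Sym2.eq_iff.1 h with ⟨h1, h2⟩ | ⟨h1, h2⟩
  · exact Prod.ext h1 h2
  · have h3 : x = y' := h1
    exact absurd (h3 ▸ hp.1) hp'.2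

theorem sum_EA (f : Sym2 V → ℝ) (A : Finset V) : ∑ e ∈ EA A, f e = bd f A :=
  Finset.sum_image (injOn_EA A)

theorem mem_EA {A : Finset V} {x y : V} (h : ¬ (x ∈ A ↔ y ∈ A)) : s(x, y) ∈ EA A := by
  unfold EA
  rw [Finset.mem_image]
  by_cases hx : x ∈ A
  · exact ⟨(x, y), by simp [hx, show y ∉ A by tauto], rfl⟩
  · exact ⟨(y, x), by simp [hx, show y ∈ A by tauto], Sym2.eq_swap⟩

theorem not_mem_EA {A : Finset V} {x y : V} (h : x ∈ A ↔ y ∈ A) : s(x, y) ∉ EA A := by
  unfold EA
  rw [Finset.mem_image]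
  rintro ⟨⟨a, b⟩, hp, he⟩
  simp only [Finset.mem_product, Finset.mem_compl] at hp
  rcases Sym2.eq_iff.1 he with ⟨rfl, rfl⟩ | ⟨rfl, rfl⟩ <;> tauto

theorem clo_iff {c : Sym2 V → Bool} {A : Finset V} :
    Clo c A ↔ ∀ e ∈ EA A, c e = false := by
  constructor
  · intro h e he
    unfold EA at he
    rw [Finset.mem_image] at he
    obtain ⟨p, hp, rfl⟩ := he
    simp only [Finset.mem_product, Finset.mem_compl] at hp
    exact h _ hp.1 _ hp.2
  · intro h x hx y hy
    exact h _ (mem_EA (by tauto))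

theorem zero_of_clo {c : Sym2 V → Bool} {A : Finset V} (h : Clo c A) : zero (EA A) c = c := by
  ext e
  unfold zero
  by_cases he : e ∈ EA A
  · simp [he, clo_iff.1 h e he]
  · simp [he]

open Classical in
theorem finite_main {w : Sym2 V → ℝ} (hw : ∀ e, 0 ≤ w e) {B : Finset V} {o : V} {ψ : ℕ → ℝ}
    (hψ0 : ∀ r, 0 < ψ r)
    (hψ : ∀ r D, D.Nonempty → Disjoint D B → 2 ^ r ≤ D.card → ψ r ≤ bd w D)
    {τ S1 S2 : ℝ} (hτ : 0 < τ) (hS1 : ∀ k, ∑ j ∈ range k, (ψ j)⁻¹ ≤ S1) {κ : ℕ → ℝ}
    (hκ1 : ∀ r, 2 / ψ r ≤ κ r)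
    (hκ2 : ∀ r, 2 / ψ r * Real.log (1 + ψ r / (2 * min τ (ψ 0 / 2))) ≤ κ r)
    (hS2 : ∀ k, ∑ j ∈ range k, κ j ≤ S2) {lam η : ℝ} (hlam : 0 ≤ lam) (hη : 0 ≤ η)
    (hη' : η ≤ lam * (1 - 2 * τ * S1) - 2 * S2) {k : ℕ} (hk : Fintype.card V < 2 ^ (k + 1)) :
    ∑ c, pr (fun e => Real.exp (-lam * w e)) c *
      (if ∃ U, o ∈ U ∧ Disjoint U B ∧ Clo c U then (1 : ℝ) else 0) ≤
      ∑ j ∈ range (k + 1), Real.exp (-η * ψ j) := by
  set q : Sym2 V → ℝ := fun e => Real.exp (-lam * w e) with hqdef
  have hq : ∀ e, 0 ≤ q e ∧ q e ≤ 1 := by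
    intro e
    refine ⟨(Real.exp_pos _).le, ?_⟩
    rw [Real.exp_le_one_iff]
    have := mul_nonneg hlam (hw e)
    linarith
  have hpr := pr_nonneg hq
  have hW : ∀ c e, 0 ≤ boost w τ c e := by
    intro c e; unfold boost; have := hw e; split_ifs <;> linarith
  have hwW : ∀ c e, w e ≤ boost w τ c e := by
    intro c e; unfold boost; split_ifs <;> linarith
  have hψW : ∀ c r D, D.Nonempty → Disjoint D B → 2 ^ r ≤ D.card →
      ψ r ≤ bd (boost w τ c) D :=
    fun c r D h1 h2 h3 => (hψ r D h1 h2 h3).trans (bd_mono (hwW c) D)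
  have hS1' : 0 ≤ S1 := by simpa using hS1 0
  have hκ0 : ∀ r, 0 ≤ κ r := fun r => (div_nonneg zero_le_two (hψ0 r).le).trans (hκ1 r)
  set a : ℝ := 2 * τ * S1 with ha
  have ha0 : 0 ≤ a := by positivity
  let F : Finset V → (Sym2 V → Bool) → ℝ := fun A c => Q (boost w τ c) B o A k ⊥
  have hF : ∀ A c, 0 ≤ F A c := fun A c => Q_nonneg (hW c) _ _
  -- Step 1
  have step1 : ∀ c, (if ∃ U, o ∈ U ∧ Disjoint U B ∧ Clo c U then (1 : ℝ) else 0) ≤
      ∑ A ∈ fam B o, Real.exp (2 * S2 * bd w A) *
        ((if ∀ e ∈ EA A, c e = false then (1 : ℝ) else 0) * F A (zero (EA A) c)) := by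
    intro c
    have hnn : ∀ A ∈ fam B o, 0 ≤ Real.exp (2 * S2 * bd w A) *
        ((if ∀ e ∈ EA A, c e = false then (1 : ℝ) else 0) * F A (zero (EA A) c)) := by
      intro A _
      refine mul_nonneg (Real.exp_pos _).le (mul_nonneg (by split_ifs <;> norm_num) (hF _ _))
    by_cases hU : ∃ U, o ∈ U ∧ Disjoint U B ∧ Clo c U
    · rw [if_pos hU]
      obtain ⟨U, hoU, hUB, hcU⟩ := hU
      obtain ⟨A, hA, hmin⟩ := Finset.exists_min_image ((fam B o).filter (fun A => Clo c A))
        (fun A => bd w A) ⟨U, Finset.mem_filter.2 ⟨mem_fam.2 ⟨hoU, hUB⟩, hcU⟩⟩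
      rw [Finset.mem_filter, mem_fam] at hA
      obtain ⟨⟨hoA, hAB⟩, hcA⟩ := hA
      refine le_trans ?_ (Finset.single_le_sum hnn (mem_fam.2 ⟨hoA, hAB⟩))
      rw [if_pos (clo_iff.1 hcA), one_mul, zero_of_clo hcA]
      have hbd : bd (boost w τ c) A = bd w A := by
        refine Finset.sum_congr rfl fun p hp => ?_
        simp only [Finset.mem_product, Finset.mem_compl] at hp
        unfold boost
        rw [hcA _ hp.1 _ hp.2]; simp
      have hb0 : 0 < min τ (ψ 0 / 2) := lt_min hτ (by have := hψ0 0; linarith)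
      have h1 := lower (hW c) hoA hAB hκ0 (fun r D hD hDB hcard hside => by
        have h2 := regular hw hτ hoA hAB hcA (fun U h1 h2 h3 =>
          hmin U (Finset.mem_filter.2 ⟨mem_fam.2 ⟨h1, h2⟩, h3⟩)) (ψ0 := ψ 0)
          (fun D hD hDB => hψ 0 D hD hDB (by
            rw [pow_zero, Nat.one_le_iff_ne_zero, Finset.card_ne_zero]; exact hD)) hDB hside
        have h3 := hψW c r D hD hDB hcard
        rw [← sb_add_ob _ A] at h3
        have h4 := real_ineq (ob_nonneg (hW c) A D) hb0 (hψ0 r)
          (by linarith : ψ r ≤ ob (boost w τ c) A D + sb (boost w τ c) A D) h2 (hκ1 r) (hκ2 r)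
        rw [← sb_add_ob _ A, add_comm (sb _ _ _)]
        exact h4) k 0 ⊥ (Inv.bot B) (fun x y h => by
          have : x = y := h
          rw [this])
        (by
          have h5 := Finset.card_le_univ A
          rw [zero_add]; exact lt_of_le_of_lt h5 hk)
      rw [hbd] at h1
      have h2 : ∑ j ∈ range k, κ (0 + j) ≤ S2 := by simpa using hS2 k
      calc (1 : ℝ) ≤ Real.exp (2 * S2 * bd w A) *
            Real.exp (-(2 * bd w A) * ∑ j ∈ range k, κ (0 + j)) := by
            rw [← Real.exp_add, Real.one_le_exp_iff]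
            have := bd_nonneg hw A
            nlinarith
        _ ≤ Real.exp (2 * S2 * bd w A) * F A c :=
            mul_le_mul_of_nonneg_left h1 (Real.exp_pos _).le
    · rw [if_neg hU]
      exact Finset.sum_nonneg hnn
  -- Step 2
  have step2 : ∀ A ∈ fam B o, Real.exp (2 * S2 * bd w A) *
      ∑ c, pr q c * ((if ∀ e ∈ EA A, c e = false then (1 : ℝ) else 0) * F A (zero (EA A) c)) ≤
      Real.exp (-η * bd w A) * ∑ c, pr q c * F A c := by
    intro A _
    have hbd := bd_nonneg hw A
    have h1 := zero_ineq hq (a := a) (EA A) (F A) (hF A)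
    have h2 : ∏ e ∈ EA A, (q e * Real.exp (a * (1 - q e))) ≤
        Real.exp ((-lam + a * lam) * bd w A) := by
      rw [← sum_EA w A, Finset.mul_sum, Real.exp_sum]
      refine Finset.prod_le_prod (fun e _ => mul_nonneg (hq e).1 (Real.exp_pos _).le)
        fun e _ => ?_
      rw [hqdef]
      simp only
      rw [← Real.exp_add]
      apply Real.exp_le_exp.2
      have h3 : 1 - lam * w e ≤ Real.exp (-lam * w e) := by
        have := Real.add_one_le_exp (-lam * w e)
        linarith
      nlinarith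
    have h3 : ∑ c, pr q c * (Real.exp (-a * NK (EA A) c) * F A (zero (EA A) c)) ≤
        ∑ c, pr q c * F A c := by
      refine Finset.sum_le_sum fun c _ => mul_le_mul_of_nonneg_left ?_ (hpr c)
      have hle : ∀ e, boost w τ (zero (EA A) c) e ≤ boost w τ c e := by
        intro e; unfold boost zero
        by_cases he : e ∈ EA A
        · simp only [he, if_true]; split_ifs <;> simp_all; linarith
        · simp [he]
      have h4 := compare (hW (zero (EA A) c)) hle (B := B) (A := A) (o := o)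
        (fun x y hxy => by
          have := not_mem_EA hxy
          unfold boost zero; simp [this]) hψ0 (hψW _) k 0 ⊥ (Inv.bot B)
      refine le_trans (mul_le_mul_of_nonneg_right ?_ (hF _ _)) h4
      apply Real.exp_le_exp.2
      have h5 : bd (boost w τ c) A - bd (boost w τ (zero (EA A) c)) A =
          τ * NK (EA A) c := by
        rw [← sum_EA, ← sum_EA, ← Finset.sum_sub_distrib, NK, Finset.mul_sum]
        refine Finset.sum_congr rfl fun e he => ?_
        unfold boost zero
        cases hce : c e <;> simp [he]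
      rw [h5]
      have h6 : ∑ j ∈ range k, (ψ (0 + j))⁻¹ ≤ S1 := by simpa using hS1 k
      have h7 : 0 ≤ NK (EA A) c := Finset.sum_nonneg fun _ _ => by split_ifs <;> norm_num
      have h8 := mul_nonneg hτ.le h7
      rw [ha]
      nlinarith
    have h9 : 0 ≤ ∑ c, pr q c * F A c :=
      Finset.sum_nonneg fun c _ => mul_nonneg (hpr c) (hF A c)
    have h10 : 0 ≤ ∑ c, pr q c * (Real.exp (-a * NK (EA A) c) * F A (zero (EA A) c)) :=
      Finset.sum_nonneg fun c _ => mul_nonneg (hpr c) (mul_nonneg (Real.exp_pos _).le (hF _ _))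
    calc Real.exp (2 * S2 * bd w A) *
      ∑ c, pr q c * ((if ∀ e ∈ EA A, c e = false then (1 : ℝ) else 0) * F A (zero (EA A) c))
        ≤ Real.exp (2 * S2 * bd w A) * (Real.exp ((-lam + a * lam) * bd w A) *
            ∑ c, pr q c * F A c) := by
          refine mul_le_mul_of_nonneg_left (h1.trans ?_) (Real.exp_pos _).le
          exact mul_le_mul h2 h3 h10 (Real.exp_pos _).le
      _ = Real.exp (2 * S2 * bd w A + (-lam + a * lam) * bd w A) * ∑ c, pr q c * F A c := by
          rw [Real.exp_add]; ring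
      _ ≤ Real.exp (-η * bd w A) * ∑ c, pr q c * F A c := by
          refine mul_le_mul_of_nonneg_right (Real.exp_le_exp.2 ?_) h9
          nlinarith
  -- conclusion
  calc ∑ c, pr q c * (if ∃ U, o ∈ U ∧ Disjoint U B ∧ Clo c U then (1 : ℝ) else 0)
      ≤ ∑ c, pr q c * ∑ A ∈ fam B o, Real.exp (2 * S2 * bd w A) *
        ((if ∀ e ∈ EA A, c e = false then (1 : ℝ) else 0) * F A (zero (EA A) c)) :=
        Finset.sum_le_sum fun c _ => mul_le_mul_of_nonneg_left (step1 c) (hpr c)
    _ = ∑ A ∈ fam B o, Real.exp (2 * S2 * bd w A) *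
        ∑ c, pr q c * ((if ∀ e ∈ EA A, c e = false then (1 : ℝ) else 0) *
          F A (zero (EA A) c)) := by
        simp only [Finset.mul_sum]
        rw [Finset.sum_comm]
        refine Finset.sum_congr rfl fun A _ => Finset.sum_congr rfl fun c _ => by ring
    _ ≤ ∑ A ∈ fam B o, Real.exp (-η * bd w A) * ∑ c, pr q c * F A c :=
        Finset.sum_le_sum step2
    _ = ∑ c, pr q c * ∑ A ∈ fam B o, F A c * Real.exp (-η * bd w A) := by
        simp only [Finset.mul_sum]
        rw [Finset.sum_comm]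
        refine Finset.sum_congr rfl fun A _ => Finset.sum_congr rfl fun c _ => by ring
    _ ≤ ∑ c, pr q c * ∑ j ∈ range (k + 1), Real.exp (-η * ψ j) := by
        refine Finset.sum_le_sum fun c _ => mul_le_mul_of_nonneg_left ?_ (hpr c)
        have := upper (hW c) (o := o) hη hψ k 0 ⊥ (Inv.bot B)
        simpa using this
    _ = ∑ j ∈ range (k + 1), Real.exp (-η * ψ j) := by
        rw [← Finset.sum_mul, sum_pr, one_mul]

end Main

end Pool.Agent.TH994.LR
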