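import Mathlib
import Pool.Agent.TH994.LR.Fin

set_option autoImplicit false
set_option linter.unusedSectionVars false

open Finset MeasureTheory
open scoped ENNReal NNReal

namespace Pool.Agent.TH994.LR

/-- unordered pairs of distinct elements -/
abbrev PairT (Γ : Type*) : Type _ := {e : Sym2 Γ // ¬ e.IsDiag}

variable {Γ : Type*} [DecidableEq Γ]

/-- total weight of the pairs leaving `S` -/
noncomputable def outW (wt : Sym2 Γ → ℝ≥0) (S : Finset Γ) : ℝ≥0∞ :=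
  ∑ x ∈ S, ∑' y, if y ∈ S then 0 else (wt s(x, y) : ℝ≥0∞)

theorem exists_big {wt : Sym2 Γ → ℝ≥0} (hfin : ∀ x, ∑' y, (wt s(x, y) : ℝ≥0∞) ≠ ⊤)
    (Λ : Finset Γ) {ε : ℝ≥0∞} (hε : 0 < ε) :
    ∃ Λ' : Finset Γ, Λ ⊆ Λ' ∧
      ∑ x ∈ Λ, ∑' y, (if y ∈ Λ' then 0 else (wt s(x, y) : ℝ≥0∞)) ≤ ε := by
  have h1 : ∑' y, ∑ x ∈ Λ, (wt s(x, y) : ℝ≥0∞) ≠ ⊤ := by
    rw [Summable.tsum_finsetSum fun _ _ => ENNReal.summable]
    exact ENNReal.sum_ne_top.2 fun x _ => hfin x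
  have h2 := ENNReal.tendsto_tsum_compl_atTop_zero h1
  have h3 := (h2.eventually (ge_mem_nhds hε)).and (Filter.eventually_ge_atTop Λ)
  obtain ⟨Λ', h4, h5⟩ := h3.exists
  refine ⟨Λ', h5, le_trans (le_of_eq ?_) h4⟩
  rw [← Summable.tsum_finsetSum fun _ _ => ENNReal.summable]
  have e := tsum_subtype {y | y ∉ Λ'} (fun y => ∑ x ∈ Λ, (wt s(x, y) : ℝ≥0∞))
  rw [show (∑' b : {y // y ∉ Λ'}, ∑ x ∈ Λ, (wt s(x, (b : Γ)) : ℝ≥0∞)) =
    ∑' b : ({y | y ∉ Λ'} : Set Γ), ∑ x ∈ Λ, (wt s(x, (b : Γ)) : ℝ≥0∞) from rfl, e]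
  refine tsum_congr fun y => ?_
  by_cases hy : y ∈ Λ'
  · simp [hy]
  · simp [hy]

/-- the weights on a finite piece -/
noncomputable def wV (wt : Sym2 Γ → ℝ≥0) (Λ' : Finset Γ) (e : Sym2 {x // x ∈ Λ'}) : ℝ :=
  if e.IsDiag then 0 else (wt (e.map Subtype.val) : ℝ)

theorem wV_nonneg (wt : Sym2 Γ → ℝ≥0) (Λ' : Finset Γ) (e : Sym2 {x // x ∈ Λ'}) :
    0 ≤ wV wt Λ' e := by
  unfold wV; split_ifs
  · exact le_rfl
  · exact NNReal.coe_nonneg _

theorem bd_wV {wt : Sym2 Γ → ℝ≥0} {Λ' : Finset Γ} (D : Finset {x // x ∈ Λ'}) :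
    ENNReal.ofReal (bd (wV wt Λ') D) =
      ∑ x ∈ D.map (Function.Embedding.subtype _),
        ∑ y ∈ Λ' \ (D.map (Function.Embedding.subtype _)), (wt s(x, y) : ℝ≥0∞) := by
  rw [bd_eq, ENNReal.ofReal_sum_of_nonneg
    fun x _ => Finset.sum_nonneg fun y _ => wV_nonneg wt Λ' _]
  rw [Finset.sum_map]
  refine Finset.sum_congr rfl fun x hx => ?_
  rw [ENNReal.ofReal_sum_of_nonneg fun y _ => wV_nonneg wt Λ' _]
  have e : Λ' \ (D.map (Function.Embedding.subtype _)) =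
      Dᶜ.map (Function.Embedding.subtype _) := by
    ext y
    simp only [Finset.mem_sdiff, Finset.mem_map, Function.Embedding.subtype_apply,
      Subtype.exists, exists_and_right, exists_eq_right, Finset.mem_compl, not_exists]
    constructor
    · rintro ⟨h1, h2⟩; exact ⟨h1, h2 h1⟩
    · rintro ⟨h1, h2⟩; exact ⟨h1, fun _ => h2⟩
  rw [e, Finset.sum_map]
  refine Finset.sum_congr rfl fun y hy => ?_
  have hne : ¬ (s(x, y) : Sym2 {x // x ∈ Λ'}).IsDiag := by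
    rw [Sym2.mk_isDiag_iff]
    rintro rfl
    exact (Finset.mem_compl.1 hy) hx
  unfold wV
  rw [if_neg hne]
  simp

theorem sum_eq_tsum_ite (T : Finset Γ) (g : Γ → ℝ≥0∞) :
    ∑ y ∈ T, g y = ∑' y, if y ∈ T then g y else 0 := by
  rw [tsum_eq_sum (s := T) (fun y hy => by simp [hy])]
  exact Finset.sum_congr rfl fun y hy => by simp [hy]

theorem bd_ge {wt : Sym2 Γ → ℝ≥0} {ψ : ℕ → ℝ} (hψ0 : ∀ r, 0 < ψ r) (hmono : ∀ r, ψ 0 ≤ ψ r)
    (hψ : ∀ r (D : Finset Γ), D.Nonempty → 2 ^ r ≤ D.card →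
      ENNReal.ofReal (2 * ψ r) ≤ outW wt D)
    {Λ Λ' : Finset Γ}
    (hbig : ∑ x ∈ Λ, ∑' y, (if y ∈ Λ' then 0 else (wt s(x, y) : ℝ≥0∞)) ≤ ENNReal.ofReal (ψ 0))
    (r : ℕ) (D : Finset {x // x ∈ Λ'}) (hD : D.Nonempty)
    (hDB : Disjoint D (univ.filter (fun x => x.1 ∉ Λ))) (hcard : 2 ^ r ≤ D.card) :
    ψ r ≤ bd (wV wt Λ') D := by
  set D' : Finset Γ := D.map (Function.Embedding.subtype _) with hD'
  have hDΛ : D' ⊆ Λ := by
    intro x hx
    rw [hD', Finset.mem_map] at hx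
    obtain ⟨y, hy, rfl⟩ := hx
    by_contra hno
    exact Finset.disjoint_left.1 hDB hy (by simpa using hno)
  have h1 := hψ r D' (by rw [hD']; exact hD.map) (by rw [hD', Finset.card_map]; exact hcard)
  have h2 : outW wt D' ≤ ENNReal.ofReal (bd (wV wt Λ') D) + ENNReal.ofReal (ψ 0) := by
    rw [bd_wV]
    refine le_trans ?_ (add_le_add_right hbig _)
    refine le_trans ?_ (add_le_add_right (Finset.sum_le_sum_of_subset hDΛ) _)
    rw [← hD', ← Finset.sum_add_distrib]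
    refine Finset.sum_le_sum fun x _ => ?_
    rw [sum_eq_tsum_ite (Λ' \ D'), ← ENNReal.tsum_add]
    refine ENNReal.tsum_le_tsum fun y => ?_
    by_cases hy : y ∈ D'
    · simp [hy]
    · by_cases hy' : y ∈ Λ' <;> simp [hy, hy']
  have hbd := bd_nonneg (wV_nonneg wt Λ') D
  rw [← ENNReal.ofReal_add hbd (hψ0 0).le] at h2
  have h3 := (ENNReal.ofReal_le_ofReal_iff (add_nonneg hbd (hψ0 0).le)).1 (h1.trans h2)
  have := hmono r
  linarith

/-! ### The law of the configuration on a finite piece -/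

open Classical in
/-- the configuration of open pairs on a finite piece -/
noncomputable def cfg (Λ' : Finset Γ) (ω : PairT Γ → ℕ) (e : Sym2 {x // x ∈ Λ'}) : Bool :=
  decide (∃ h : ¬ (e.map Subtype.val).IsDiag, 0 < ω ⟨e.map Subtype.val, h⟩)

theorem cfg_law {wt : Sym2 Γ → ℝ≥0} {t : ℝ} {P : PairT Γ → Measure ℕ}
    [∀ e, IsProbabilityMeasure (P e)]
    (hP : ∀ e, P e {0} = ENNReal.ofReal (Real.exp (-t * wt e.1))) (ht : 0 ≤ t)
    (Λ' : Finset Γ) (c : Sym2 {x // x ∈ Λ'} → Bool) :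
    Measure.infinitePi P {ω | cfg Λ' ω = c} ≤
      ENNReal.ofReal (pr (fun e => Real.exp (-t * wV wt Λ' e)) c) := by
  classical
  by_cases hdiag : ∃ e, e.IsDiag ∧ c e = true
  · obtain ⟨e, he, hce⟩ := hdiag
    have : {ω | cfg Λ' ω = c} = (∅ : Set (PairT Γ → ℕ)) := by
      rw [Set.eq_empty_iff_forall_notMem]
      intro ω hω
      have h1 : cfg Λ' ω e = true := by
        rw [show cfg Λ' ω = c from hω]; exact hce
      unfold cfg at h1
      rw [decide_eq_true_iff] at h1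
      obtain ⟨h, _⟩ := h1
      exact h (Sym2.IsDiag.map he)
    rw [this, measure_empty]
    exact zero_le
  · push Not at hdiag
    have hinj : Function.Injective (Sym2.map (Subtype.val : {x // x ∈ Λ'} → Γ)) :=
      Sym2.map.injective Subtype.val_injective
    let emb : {e : Sym2 {x // x ∈ Λ'} // ¬ e.IsDiag} ↪ PairT Γ :=
      ⟨fun e => ⟨e.1.map Subtype.val, fun h =>
        e.2 ((Sym2.isDiag_map Subtype.val_injective).1 h)⟩, fun e e' h => by
        have h1 : e.1.map Subtype.val = e'.1.map Subtype.val := congrArg Subtype.val h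
        exact Subtype.ext (hinj h1)⟩
    let st : PairT Γ → Set ℕ := fun i =>
      if ∃ e, e.map Subtype.val = i.1 ∧ c e = true then {n | 0 < n} else {0}
    have hst : ∀ e : {e : Sym2 {x // x ∈ Λ'} // ¬ e.IsDiag},
        st (emb e) = if c e.1 then {n | 0 < n} else {0} := by
      intro e
      have : (∃ e', e'.map Subtype.val = (emb e).1 ∧ c e' = true) ↔ c e.1 = true := by
        constructor
        · rintro ⟨e', h1, h2⟩
          rw [← hinj h1]; exact h2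
        · intro h; exact ⟨e.1, rfl, h⟩
      simp only [st, this]
    have hsub : {ω | cfg Λ' ω = c} ⊆
        Set.pi ((univ.map emb : Finset (PairT Γ)) : Set (PairT Γ)) st := by
      intro ω hω i hi
      rw [Finset.mem_coe, Finset.mem_map] at hi
      obtain ⟨e, _, rfl⟩ := hi
      rw [hst e]
      have h1 : cfg Λ' ω e.1 = c e.1 := by rw [show cfg Λ' ω = c from hω]
      unfold cfg at h1
      by_cases hce : c e.1 = true
      · rw [if_pos hce]
        rw [hce, decide_eq_true_iff] at h1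
        obtain ⟨_, h⟩ := h1
        exact h
      · rw [if_neg hce]
        have hce' : c e.1 = false := by simpa using hce
        rw [hce', decide_eq_false_iff_not] at h1
        by_contra hno
        exact h1 ⟨(emb e).2, Nat.pos_of_ne_zero hno⟩
    refine (measure_mono hsub).trans ?_
    rw [Measure.infinitePi_pi _ fun i _ => MeasurableSet.of_discrete, Finset.prod_map]
    have hfac : ∀ e : {e : Sym2 {x // x ∈ Λ'} // ¬ e.IsDiag}, P (emb e) (st (emb e)) =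
        ENNReal.ofReal (if c e.1 then 1 - Real.exp (-t * wV wt Λ' e.1)
          else Real.exp (-t * wV wt Λ' e.1)) := by
      intro e
      have h0 : P (emb e) {0} = ENNReal.ofReal (Real.exp (-t * wV wt Λ' e.1)) := by
        rw [hP]
        unfold wV
        rw [if_neg e.2]
        rfl
      rw [hst e]
      by_cases hce : c e.1 = true
      · rw [if_pos hce, if_pos hce]
        have : {n : ℕ | 0 < n} = ({0} : Set ℕ)ᶜ := by
          ext n; simp [Nat.pos_iff_ne_zero]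
        rw [this, prob_compl_eq_one_sub (MeasurableSet.singleton 0), h0,
          ENNReal.ofReal_sub _ (Real.exp_pos _).le, ENNReal.ofReal_one]
      · rw [if_neg hce, if_neg hce, h0]
    rw [Finset.prod_congr rfl fun e _ => hfac e]
    rw [← ENNReal.ofReal_prod_of_nonneg]
    · apply ENNReal.ofReal_le_ofReal
      apply le_of_eq
      unfold pr
      rw [← Finset.prod_subtype (univ.filter fun e : Sym2 {x // x ∈ Λ'} => ¬ e.IsDiag)
        (by simp) (fun e => if c e then 1 - Real.exp (-t * wV wt Λ' e)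
          else Real.exp (-t * wV wt Λ' e))]
      refine Finset.prod_subset (Finset.subset_univ _) fun e _ he => ?_
      have he' : e.IsDiag := by simpa using he
      have hce : c e = false := by simpa using hdiag e he'
      rw [hce]
      simp [wV, he']
    · intro e _
      have h1 : Real.exp (-t * wV wt Λ' e.1) ≤ 1 := by
        rw [Real.exp_le_one_iff]
        have := mul_nonneg ht (wV_nonneg wt Λ' e.1)
        linarith
      have h2 := Real.exp_pos (-t * wV wt Λ' e.1)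
      split_ifs <;> linarith

/-! ### Finite clusters -/

open Classical in
theorem cluster_sub {wt : Sym2 Γ → ℝ≥0} (hfin : ∀ x, ∑' y, (wt s(x, y) : ℝ≥0∞) ≠ ⊤)
    {ψ : ℕ → ℝ} (hψ0 : ∀ r, 0 < ψ r) (hmono : ∀ r, ψ 0 ≤ ψ r)
    (hψ : ∀ r (D : Finset Γ), D.Nonempty → 2 ^ r ≤ D.card →
      ENNReal.ofReal (2 * ψ r) ≤ outW wt D)
    {τ S1 S2 : ℝ} (hτ : 0 < τ) (hS1 : ∀ k, ∑ j ∈ range k, (ψ j)⁻¹ ≤ S1) {κ : ℕ → ℝ}
    (hκ1 : ∀ r, 2 / ψ r ≤ κ r)
    (hκ2 : ∀ r, 2 / ψ r * Real.log (1 + ψ r / (2 * min τ (ψ 0 / 2))) ≤ κ r)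
    (hS2 : ∀ k, ∑ j ∈ range k, κ j ≤ S2) {t η : ℝ} (ht : 0 ≤ t) (hη : 0 ≤ η)
    (hη' : η ≤ t * (1 - 2 * τ * S1) - 2 * S2) {C : ℝ}
    (hC : ∀ k, ∑ j ∈ range k, Real.exp (-η * ψ j) ≤ C)
    {P : PairT Γ → Measure ℕ} [∀ e, IsProbabilityMeasure (P e)]
    (hP : ∀ e, P e {0} = ENNReal.ofReal (Real.exp (-t * wt e.1)))
    {G : (PairT Γ → ℕ) → SimpleGraph Γ}
    (hG : ∀ ω x y, (G ω).Adj x y ↔ ∃ h : ¬ (s(x, y)).IsDiag, 0 < ω ⟨s(x, y), h⟩)
    (o : Γ) (Λ : Finset Γ) (ho : o ∈ Λ) :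
    Measure.infinitePi P {ω | ∀ y, (G ω).Reachable o y → y ∈ Λ} ≤ ENNReal.ofReal C := by
  obtain ⟨Λ', hΛ, hbig⟩ := exists_big hfin Λ (ENNReal.ofReal_pos.2 (hψ0 0))
  set w := wV wt Λ' with hw
  set B : Finset {x // x ∈ Λ'} := univ.filter (fun x => x.1 ∉ Λ) with hB
  set o' : {x // x ∈ Λ'} := ⟨o, hΛ ho⟩ with ho'
  obtain ⟨k, hk⟩ : ∃ k : ℕ, Fintype.card {x // x ∈ Λ'} < 2 ^ (k + 1) :=
    ⟨Fintype.card {x // x ∈ Λ'}, lt_of_lt_of_le Nat.lt_two_pow_self
      (Nat.pow_le_pow_right (by norm_num) (Nat.le_succ _))⟩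
  have hmain := finite_main (w := w) (wV_nonneg wt Λ') (B := B) (o := o') hψ0
    (fun r D h1 h2 h3 => bd_ge hψ0 hmono hψ hbig r D h1 h2 h3) hτ hS1 hκ1 hκ2 hS2 ht hη hη' hk
  have hsub : {ω | ∀ y, (G ω).Reachable o y → y ∈ Λ} ⊆
      ⋃ c ∈ (univ : Finset (Sym2 {x // x ∈ Λ'} → Bool)).filter
        (fun c => ∃ U, o' ∈ U ∧ Disjoint U B ∧ Clo c U), {ω | cfg Λ' ω = c} := by
    intro ω hω
    simp only [Finset.mem_filter, Finset.mem_univ, true_and, Set.mem_iUnion, Set.mem_ofPred_eq,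
      exists_prop]
    refine ⟨cfg Λ' ω, ⟨univ.filter (fun x => (G ω).Reachable o x.1), ?_, ?_, ?_⟩, rfl⟩
    · simp [ho']
    · rw [Finset.disjoint_left]
      intro x hx hxB
      rw [Finset.mem_filter] at hx
      rw [hB, Finset.mem_filter] at hxB
      exact hxB.2 (hω _ hx.2)
    · intro x hx y hy
      rw [Finset.mem_filter] at hx hy
      unfold cfg
      rw [decide_eq_false_iff_not]
      rintro ⟨h1, h2⟩
      apply hy
      refine ⟨mem_univ _, hx.2.trans ?_⟩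
      exact ((hG ω x.1 y.1).2 ⟨h1, h2⟩).reachable
  refine (measure_mono hsub).trans ?_
  refine (measure_biUnion_finset_le _ _).trans ?_
  have hq : ∀ e, 0 ≤ Real.exp (-t * w e) ∧ Real.exp (-t * w e) ≤ 1 := by
    intro e
    refine ⟨(Real.exp_pos _).le, ?_⟩
    rw [Real.exp_le_one_iff]
    have := mul_nonneg ht (wV_nonneg wt Λ' e)
    linarith
  calc ∑ c ∈ (univ : Finset (Sym2 {x // x ∈ Λ'} → Bool)).filter
        (fun c => ∃ U, o' ∈ U ∧ Disjoint U B ∧ Clo c U), Measure.infinitePi P {ω | cfg Λ' ω = c}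
      ≤ ∑ c ∈ (univ : Finset (Sym2 {x // x ∈ Λ'} → Bool)).filter
        (fun c => ∃ U, o' ∈ U ∧ Disjoint U B ∧ Clo c U),
          ENNReal.ofReal (pr (fun e => Real.exp (-t * w e)) c) :=
        Finset.sum_le_sum fun c _ => cfg_law hP ht Λ' c
    _ = ENNReal.ofReal (∑ c ∈ (univ : Finset (Sym2 {x // x ∈ Λ'} → Bool)).filter
        (fun c => ∃ U, o' ∈ U ∧ Disjoint U B ∧ Clo c U),
          pr (fun e => Real.exp (-t * w e)) c) :=
        (ENNReal.ofReal_sum_of_nonneg fun c _ => pr_nonneg hq c).symm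
    _ ≤ ENNReal.ofReal C := by
        apply ENNReal.ofReal_le_ofReal
        refine le_trans (le_of_eq ?_) (hmain.trans (hC (k + 1)))
        rw [Finset.sum_filter]
        refine Finset.sum_congr rfl fun c _ => ?_
        split_ifs <;> simp

theorem cluster_inf [Countable Γ] {wt : Sym2 Γ → ℝ≥0}
    (hfin : ∀ x, ∑' y, (wt s(x, y) : ℝ≥0∞) ≠ ⊤)
    {ψ : ℕ → ℝ} (hψ0 : ∀ r, 0 < ψ r) (hmono : ∀ r, ψ 0 ≤ ψ r)
    (hψ : ∀ r (D : Finset Γ), D.Nonempty → 2 ^ r ≤ D.card →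
      ENNReal.ofReal (2 * ψ r) ≤ outW wt D)
    {τ S1 S2 : ℝ} (hτ : 0 < τ) (hS1 : ∀ k, ∑ j ∈ range k, (ψ j)⁻¹ ≤ S1) {κ : ℕ → ℝ}
    (hκ1 : ∀ r, 2 / ψ r ≤ κ r)
    (hκ2 : ∀ r, 2 / ψ r * Real.log (1 + ψ r / (2 * min τ (ψ 0 / 2))) ≤ κ r)
    (hS2 : ∀ k, ∑ j ∈ range k, κ j ≤ S2) {t η : ℝ} (ht : 0 ≤ t) (hη : 0 ≤ η)
    (hη' : η ≤ t * (1 - 2 * τ * S1) - 2 * S2) {C : ℝ}
    (hC : ∀ k, ∑ j ∈ range k, Real.exp (-η * ψ j) ≤ C) (hC1 : C < 1)
    {P : PairT Γ → Measure ℕ} [∀ e, IsProbabilityMeasure (P e)]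
    (hP : ∀ e, P e {0} = ENNReal.ofReal (Real.exp (-t * wt e.1)))
    {G : (PairT Γ → ℕ) → SimpleGraph Γ}
    (hG : ∀ ω x y, (G ω).Adj x y ↔ ∃ h : ¬ (s(x, y)).IsDiag, 0 < ω ⟨s(x, y), h⟩)
    (o : Γ) :
    Measure.infinitePi P {ω | {y | (G ω).Reachable o y}.Infinite} ≠ 0 := by
  obtain ⟨en, hen⟩ : ∃ f : ℕ → Γ, Function.Surjective f := by
    have : Nonempty Γ := ⟨o⟩
    exact exists_surjective_nat Γ
  let Λ : ℕ → Finset Γ := fun n => insert o ((range n).image en)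
  have hΛmono : Monotone Λ := fun m n hmn =>
    Finset.insert_subset_insert _ (Finset.image_subset_image (Finset.range_mono hmn))
  have hU : {ω | {y | (G ω).Reachable o y}.Finite} =
      ⋃ n, {ω : PairT Γ → ℕ | ∀ y, (G ω).Reachable o y → y ∈ Λ n} := by
    ext ω
    simp only [Set.mem_ofPred_eq, Set.mem_iUnion]
    constructor
    · intro hf
      choose idx hidx using hen
      obtain ⟨N, hN⟩ : ∃ N, ∀ y ∈ hf.toFinset, idx y < N := by
        refine ⟨(hf.toFinset.sup idx) + 1, fun y hy => ?_⟩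
        exact Nat.lt_succ_of_le (Finset.le_sup hy)
      refine ⟨N, fun y hy => Finset.mem_insert_of_mem (Finset.mem_image.2 ⟨idx y, ?_, hidx y⟩)⟩
      exact Finset.mem_range.2 (hN y (hf.mem_toFinset.2 hy))
    · rintro ⟨n, hn⟩
      exact (Finset.finite_toSet (Λ n)).subset hn
  have hle : Measure.infinitePi P {ω | {y | (G ω).Reachable o y}.Finite} ≤
      ENNReal.ofReal C := by
    rw [hU, Monotone.measure_iUnion]
    · exact iSup_le fun n => cluster_sub hfin hψ0 hmono hψ hτ hS1 hκ1 hκ2 hS2 ht hη hη' hC hP hG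
        o (Λ n) (Finset.mem_insert_self _ _)
    · intro m n hmn ω hω y hy
      exact hΛmono hmn (hω y hy)
  intro h0
  have h1 : (1 : ℝ≥0∞) ≤ Measure.infinitePi P {ω | {y | (G ω).Reachable o y}.Finite} +
      Measure.infinitePi P {ω | {y | (G ω).Reachable o y}.Infinite} := by
    rw [← measure_univ (μ := Measure.infinitePi P)]
    refine le_trans (measure_mono ?_) (measure_union_le _ _)
    intro ω _
    exact Set.finite_or_infinite _
  rw [h0, add_zero] at h1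
  have h2 := h1.trans hle
  rw [← ENNReal.ofReal_one] at h2
  have h3 : (1 : ℝ) ≤ C := by
    by_contra hno
    exact absurd h2 (not_le.2 ((ENNReal.ofReal_lt_ofReal_iff one_pos).2 (not_le.1 hno)))
  linarith

/-- If `ψ r` is a lower bound for half the boundary of the sets with at least `2 ^ r` elements,
and `∑ 1 / ψ r` and `∑ log (1 + ψ r) / ψ r` converge, then for large intensity the cluster of each
vertex is infinite with positive probability. -/
theorem exists_threshold [Countable Γ] {wt : Sym2 Γ → ℝ≥0}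
    (hfin : ∀ x, ∑' y, (wt s(x, y) : ℝ≥0∞) ≠ ⊤)
    {ψ : ℕ → ℝ} (hψ0 : ∀ r, 0 < ψ r) (hmono : ∀ r, ψ 0 ≤ ψ r)
    (hψ : ∀ r (D : Finset Γ), D.Nonempty → 2 ^ r ≤ D.card →
      ENNReal.ofReal (2 * ψ r) ≤ outW wt D)
    {S1 S3 : ℝ} (hS1 : ∀ k, ∑ j ∈ range k, (ψ j)⁻¹ ≤ S1)
    (hS3 : ∀ k, ∑ j ∈ range k, Real.log (1 + ψ j) / ψ j ≤ S3)
    {G : (PairT Γ → ℕ) → SimpleGraph Γ}
    (hG : ∀ ω x y, (G ω).Adj x y ↔ ∃ h : ¬ (s(x, y)).IsDiag, 0 < ω ⟨s(x, y), h⟩) :
    ∃ t0 : ℝ, ∀ t : ℝ, t0 ≤ t → ∀ (P : PairT Γ → Measure ℕ) (_ : ∀ e, IsProbabilityMeasure (P e))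
      (_ : ∀ e, P e {0} = ENNReal.ofReal (Real.exp (-t * wt e.1))) (o : Γ),
      Measure.infinitePi P {ω | {y | (G ω).Reachable o y}.Infinite} ≠ 0 := by
  have hS1pos : 0 < S1 := lt_of_lt_of_le (inv_pos.2 (hψ0 0)) (by simpa using hS1 1)
  set τ : ℝ := 1 / (4 * S1) with hτdef
  have hτ : 0 < τ := by positivity
  set b0 := min τ (ψ 0 / 2) with hb0def
  have hb0 : 0 < b0 := lt_min hτ (by have := hψ0 0; linarith)
  set κ : ℕ → ℝ := fun r => 2 * (1 + Real.log (1 + 1 / (2 * b0))) * (ψ r)⁻¹ +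
    2 * (Real.log (1 + ψ r) / ψ r) with hκ
  have hlog0 : 0 ≤ Real.log (1 + 1 / (2 * b0)) := Real.log_nonneg (by
    have : 0 < 1 / (2 * b0) := by positivity
    linarith)
  have hlogψ : ∀ r, 0 ≤ Real.log (1 + ψ r) := fun r => Real.log_nonneg (by linarith [hψ0 r])
  have hκ1 : ∀ r, 2 / ψ r ≤ κ r := by
    intro r
    have h1 := inv_pos.2 (hψ0 r)
    have h2 : 0 ≤ Real.log (1 + ψ r) / ψ r := div_nonneg (hlogψ r) (hψ0 r).le
    simp only [hκ]
    rw [div_eq_mul_inv]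
    nlinarith [mul_nonneg hlog0 h1.le]
  have hκ2 : ∀ r, 2 / ψ r * Real.log (1 + ψ r / (2 * b0)) ≤ κ r := by
    intro r
    have h0 := hψ0 r
    have h1 := inv_pos.2 h0
    have h2 : Real.log (1 + ψ r / (2 * b0)) ≤ Real.log (1 + ψ r) +
        Real.log (1 + 1 / (2 * b0)) := by
      rw [← Real.log_mul (by positivity) (by positivity)]
      apply Real.log_le_log (by positivity)
      have : (1 + ψ r) * (1 + 1 / (2 * b0)) = 1 + ψ r / (2 * b0) + (ψ r + 1 / (2 * b0)) := by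
        field_simp; ring
      rw [this]
      have : 0 < 1 / (2 * b0) := by positivity
      linarith
    simp only [hκ]
    calc 2 / ψ r * Real.log (1 + ψ r / (2 * b0))
        ≤ 2 / ψ r * (Real.log (1 + ψ r) + Real.log (1 + 1 / (2 * b0))) := by gcongr
      _ = 2 * Real.log (1 + 1 / (2 * b0)) * (ψ r)⁻¹ + 2 * (Real.log (1 + ψ r) / ψ r) := by
          field_simp; ring
      _ ≤ _ := by nlinarith
  set S2 : ℝ := 2 * (1 + Real.log (1 + 1 / (2 * b0))) * S1 + 2 * S3 with hS2def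
  have hS2 : ∀ k, ∑ j ∈ range k, κ j ≤ S2 := by
    intro k
    simp only [hκ]
    rw [Finset.sum_add_distrib, ← Finset.mul_sum, ← Finset.mul_sum]
    have := hS1 k
    have := hS3 k
    have h3 : 0 ≤ 2 * (1 + Real.log (1 + 1 / (2 * b0))) := by linarith
    have := mul_le_mul_of_nonneg_left (hS1 k) h3
    linarith
  -- choice of `η`
  obtain ⟨η, hη1, hη2⟩ : ∃ η : ℝ, 1 ≤ η ∧ S1 * Real.exp (-(η - 1) * ψ 0) ≤ 1 / 2 := by
    refine ⟨1 + 2 * S1 / ψ 0, ?_, ?_⟩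
    · have := hψ0 0
      have : 0 ≤ 2 * S1 / ψ 0 := by positivity
      linarith
    · have h0 := hψ0 0
      have e : -(1 + 2 * S1 / ψ 0 - 1) * ψ 0 = -(2 * S1) := by field_simp; ring
      rw [e, Real.exp_neg]
      have h1 : 2 * S1 + 1 ≤ Real.exp (2 * S1) := Real.add_one_le_exp _
      rw [← div_eq_mul_inv, div_le_iff₀ (Real.exp_pos _)]
      linarith
  refine ⟨max 0 (2 * (η + 2 * S2)), fun t ht P hPp hP o => ?_⟩
  have ht0 : 0 ≤ t := (le_max_left _ _).trans ht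
  have ht1 : 2 * (η + 2 * S2) ≤ t := (le_max_right _ _).trans ht
  refine cluster_inf hfin hψ0 hmono hψ hτ hS1 hκ1 hκ2 hS2 ht0 (by linarith : (0 : ℝ) ≤ η) ?_
    (C := 1 / 2) ?_ (by norm_num) hP hG o
  · have : 2 * τ * S1 = 1 / 2 := by rw [hτdef]; field_simp; norm_num
    rw [this]; linarith
  · intro k
    have h1 : ∀ j ∈ range k, Real.exp (-η * ψ j) ≤ Real.exp (-(η - 1) * ψ 0) * (ψ j)⁻¹ := by
      intro j _
      have h0 := hψ0 j
      have h2 : Real.exp (-η * ψ j) = Real.exp (-(η - 1) * ψ j) * Real.exp (-ψ j) := by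
        rw [← Real.exp_add]; congr 1; ring
      rw [h2]
      refine mul_le_mul ?_ ?_ (Real.exp_pos _).le (Real.exp_pos _).le
      · apply Real.exp_le_exp.2
        have := hmono j
        nlinarith
      · rw [Real.exp_neg]
        apply inv_anti₀ h0
        have := Real.add_one_le_exp (ψ j)
        linarith
    refine (Finset.sum_le_sum h1).trans ?_
    rw [← Finset.mul_sum]
    have := mul_le_mul_of_nonneg_left (hS1 k) (Real.exp_pos (-(η - 1) * ψ 0)).le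
    linarith

end Pool.Agent.TH994.LR
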